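import Pool.Agent.Q55.ZT.Fac2

/-! # Finiteness of the direct factors -/

set_option autoImplicit false

namespace Pool.Agent.Q55.ZT

open Matrix Pool.Agent.Q55.SF

/-- finitely many classes of integral endomorphisms modulo `2` -/
theorem finite_codes {n : ℕ} {L : AddSubgroup (Fin n → ℚ)} (hL1 : L.FG) (hL2 : Full L) :
    ∃ (T : Type) (_ : Finite T) (c : Matrix (Fin n) (Fin n) ℚ → T),
      ∀ e f : Matrix (Fin n) (Fin n) ℚ, (∀ v ∈ L, e *ᵥ v ∈ L) → (∀ v ∈ L, f *ᵥ v ∈ L) →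
        c e = c f → ∀ v ∈ L, ∃ w ∈ L, (e - f) *ᵥ v = 2 • w := by
  classical
  obtain ⟨m, hm, h1, h2⟩ := exists_near (stdl_fg n) (stdl_full n) hL1 hL2
  have hmq : (m : ℚ) ≠ 0 := Nat.cast_ne_zero.mpr hm.ne'
  have hne : NeZero (2 * m ^ 4) := ⟨Nat.mul_ne_zero two_ne_zero (pow_ne_zero _ hm.ne')⟩
  have hA : ∀ e : Matrix (Fin n) (Fin n) ℚ, ∃ A : Matrix (Fin n) (Fin n) ℤ,
      (∀ v ∈ L, e *ᵥ v ∈ L) → ∀ i j, (A i j : ℚ) = (m : ℚ) ^ 2 * e i j := by
    intro e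
    by_cases he : ∀ v ∈ L, e *ᵥ v ∈ L
    · have h3 : ∀ i j, ∃ z : ℤ, (z : ℚ) = (m : ℚ) ^ 2 * e i j := by
        intro i j
        have h4 : (Pi.single j 1 : Fin n → ℚ) ∈ stdl n := fun k => by
          by_cases hk : k = j
          · exact ⟨1, by rw [hk, Pi.single_eq_same, Int.cast_one]⟩
          · exact ⟨0, by rw [Pi.single_eq_of_ne hk, Int.cast_zero]⟩
        obtain ⟨z, hz⟩ := h2 _ (he _ (h1 _ h4)) i
        refine ⟨z, ?_⟩
        rw [hz, mulVec_smul, Pi.smul_apply, Pi.smul_apply, Matrix.mulVec_single_one, nsmul_eq_mul,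
          nsmul_eq_mul]
        change (m : ℚ) * (m * e i j) = _
        ring
      choose A hA using h3
      exact ⟨Matrix.of A, fun _ i j => hA i j⟩
    · exact ⟨0, fun h => (he h).elim⟩
  choose A hA using hA
  refine ⟨Fin n → Fin n → ZMod (2 * m ^ 4), inferInstance, fun e i j => (A e i j : ZMod (2 * m ^ 4)),
    fun e f he hf hef v hv => ?_⟩
  have h5 : ∀ i j, ∃ F : ℤ, A e i j - A f i j = (2 * m ^ 4 : ℕ) * F := by
    intro i j
    have h6 := congrFun (congrFun hef i) j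
    have h7 := (ZMod.intCast_eq_intCast_iff_dvd_sub (A f i j) (A e i j) (2 * m ^ 4)).mp h6.symm
    exact h7
  choose F hF using h5
  have h8 : e - f = ((2 * m ^ 2 : ℕ) : ℚ) • (Matrix.of fun i j => (F i j : ℚ)) := by
    ext i j
    have h9 : (A e i j : ℚ) - A f i j = ((2 * m ^ 4 : ℕ) : ℚ) * F i j := by
      have := congrArg (Int.cast (R := ℚ)) (hF i j)
      push_cast at this ⊢
      exact this
    rw [hA e he, hA f hf] at h9
    rw [Matrix.sub_apply, Matrix.smul_apply, Matrix.of_apply, smul_eq_mul]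
    have h10 : (m : ℚ) ^ 2 ≠ 0 := pow_ne_zero _ hmq
    apply mul_left_cancel₀ h10
    push_cast at h9 ⊢
    linear_combination h9
  refine ⟨m • ((Matrix.of fun i j => (F i j : ℚ)) *ᵥ (m • v)), h1 _ ?_, ?_⟩
  · choose z hz using h2 v hv
    intro i
    refine ⟨∑ j, F i j * z j, ?_⟩
    simp only [Matrix.mulVec, dotProduct, Matrix.of_apply]
    rw [Int.cast_sum]
    refine Finset.sum_congr rfl fun j _ => ?_
    rw [Int.cast_mul, hz]
  · rw [h8, smul_mulVec, mulVec_smul, ← mul_smul, ← mul_smul, ← Nat.cast_smul_eq_nsmul ℚ]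
    congr 1
    push_cast
    ring

/-- congruent idempotents are conjugate -/
theorem conj_of_congr {n : ℕ} (E : Subalgebra ℚ (Matrix (Fin n) (Fin n) ℚ))
    {L : AddSubgroup (Fin n → ℚ)} (hL1 : L.FG) (hL2 : Full L)
    (e f : Matrix (Fin n) (Fin n) ℚ) (he : e ∈ E) (hf : f ∈ E) (he2 : e * e = e) (hf2 : f * f = f)
    (heL : ∀ v ∈ L, e *ᵥ v ∈ L) (hfL : ∀ v ∈ L, f *ᵥ v ∈ L)
    (hef : ∀ v ∈ L, ∃ w ∈ L, (e - f) *ᵥ v = 2 • w) :
    ∃ u ∈ E, ∃ u' ∈ E, u * u' = 1 ∧ u' * u = 1 ∧ f = u * e * u' := by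
  classical
  obtain ⟨m, hm, -, h2⟩ := exists_near (stdl_fg n) (stdl_full n) hL1 hL2
  have hmq : (m : ℚ) ≠ 0 := Nat.cast_ne_zero.mpr hm.ne'
  set u := f * e + (1 - f) * (1 - e) with hu
  have huE : u ∈ E := E.add_mem (E.mul_mem hf he)
    (E.mul_mem (E.sub_mem E.one_mem hf) (E.sub_mem E.one_mem he))
  have hu1 : u = 1 + (f * (e - f) - (e - f) * e) := by
    rw [hu]
    simp only [Matrix.mul_sub, Matrix.sub_mul, Matrix.mul_one, Matrix.one_mul, he2, hf2]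
    abel
  have hfe : f * u = u * e := by
    rw [hu]
    simp only [Matrix.mul_add, Matrix.add_mul, Matrix.mul_sub, Matrix.sub_mul, Matrix.mul_one,
      Matrix.one_mul, ← Matrix.mul_assoc, hf2]
    rw [Matrix.mul_assoc f e e, he2]
    abel
  have huL : ∀ v ∈ L, ∃ w ∈ L, u *ᵥ v = v + 2 • w := by
    intro v hv
    obtain ⟨w1, hw1, h3⟩ := hef v hv
    obtain ⟨w2, hw2, h4⟩ := hef _ (heL v hv)
    refine ⟨f *ᵥ w1 - w2, L.sub_mem (hfL _ hw1) hw2, ?_⟩
    rw [hu1, add_mulVec, one_mulVec, sub_mulVec, ← mulVec_mulVec, ← mulVec_mulVec, h3, h4,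
      mulVec_smul, smul_sub]
  have hdesc : ∀ v ∈ L, u *ᵥ v = 0 → ∃ w ∈ L, u *ᵥ w = 0 ∧ v = 2 • w := by
    intro v hv h3
    obtain ⟨w, hw, h4⟩ := huL v hv
    rw [h3] at h4
    have h5 : v = 2 • (-w) := by
      rw [smul_neg]
      exact eq_neg_of_add_eq_zero_left h4.symm
    refine ⟨-w, L.neg_mem hw, ?_, h5⟩
    rw [h5, mulVec_smul] at h3
    exact (smul_eq_zero.mp h3).resolve_left two_ne_zero
  have hpow : ∀ (k : ℕ) (v : Fin n → ℚ), v ∈ L → u *ᵥ v = 0 → ∃ w ∈ L, v = 2 ^ k • w := by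
    intro k
    induction k with
    | zero => exact fun v hv _ => ⟨v, hv, by rw [pow_zero, one_smul]⟩
    | succ k ih =>
      intro v hv h3
      obtain ⟨w, hw, h4, h5⟩ := hdesc v hv h3
      obtain ⟨w', hw', h6⟩ := ih w hw h4
      refine ⟨w', hw', ?_⟩
      rw [h5, h6, ← mul_smul, pow_succ, mul_comm]
  have hzero : ∀ v ∈ L, u *ᵥ v = 0 → v = 0 := by
    intro v hv h3
    funext i
    obtain ⟨z, hz⟩ := h2 v hv i
    obtain ⟨k, hk⟩ : ∃ k : ℕ, |z| < 2 ^ k := by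
      refine ⟨z.natAbs, ?_⟩
      have h4 : z.natAbs < 2 ^ z.natAbs := Nat.lt_two_pow_self
      have h5 : |z| = (z.natAbs : ℤ) := (Int.natCast_natAbs z).symm
      rw [h5]
      exact_mod_cast h4
    obtain ⟨w, hw, h4⟩ := hpow k v hv h3
    obtain ⟨y, hy⟩ := h2 w hw i
    have h5 : z = 2 ^ k * y := by
      have h6 : (z : ℚ) = 2 ^ k * y := by
        rw [hz, hy, h4, smul_comm, Pi.smul_apply (2 ^ k : ℕ), nsmul_eq_mul, Nat.cast_pow,
          Nat.cast_ofNat]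
      exact_mod_cast h6
    have h6 : z = 0 := by
      by_contra hz0
      have hy0 : y ≠ 0 := by
        rintro rfl
        exact hz0 (by rw [h5, mul_zero])
      have h7 : (1 : ℤ) ≤ |y| := Int.one_le_abs hy0
      rw [h5, abs_mul, abs_pow, abs_two] at hk
      nlinarith [pow_pos (two_pos : (0 : ℤ) < 2) k]
    rw [h6, Int.cast_zero, Pi.smul_apply, nsmul_eq_mul] at hz
    exact (mul_eq_zero.mp hz.symm).resolve_left hmq
  have hinj : ∀ v, u *ᵥ v = 0 → v = 0 := by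
    intro v hv
    obtain ⟨k, hk, h3⟩ := hL2 v
    have h4 := hzero _ h3 (by rw [mulVec_smul, hv, smul_zero])
    exact (smul_eq_zero.mp h4).resolve_left hk.ne'
  -- the inverse
  let φ : E →ₗ[ℚ] E := LinearMap.mulLeft ℚ (⟨u, huE⟩ : E)
  have hφ : Function.Injective φ := by
    rw [injective_iff_map_eq_zero]
    intro y hy
    apply Subtype.ext
    have h3 : u * y.1 = 0 := congrArg Subtype.val hy
    apply Matrix.toLin'.injective
    refine LinearMap.ext fun v => ?_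
    rw [Matrix.toLin'_apply]
    change y.1 *ᵥ v = (Matrix.toLin' (0 : Matrix (Fin n) (Fin n) ℚ)) v
    rw [map_zero, LinearMap.zero_apply]
    apply hinj
    rw [mulVec_mulVec, h3, zero_mulVec]
  obtain ⟨u', hu'⟩ := (LinearMap.injective_iff_surjective.mp hφ) 1
  have h3 : u * u'.1 = 1 := congrArg Subtype.val hu'
  have h4 : u'.1 * u = 1 := mul_eq_one_comm.mp h3
  refine ⟨u, huE, u'.1, u'.2, h3, h4, ?_⟩
  rw [← hfe, Matrix.mul_assoc, h3, Matrix.mul_one]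

variable {G : Type} [Group G] {D : Motives G}

/-- **Finiteness of the direct factors** of a `ℤ`-motive. -/
theorem finite_factors (N : D.ZMotive) (hE : IsSemisimpleRing (D.endo N.X)) :
    ∃ (m : ℕ) (B : Fin m → D.ZMotive), ∀ A : D.ZMotive, IsFactor D A N → ∃ j, D.Iso (B j) A := by
  classical
  set L := rat N.X N.L with hL
  have hL1 : L.FG := rat_fg N.isLattice
  have hL2 : Full L := rat_full N.isLattice
  obtain ⟨T, hT, c, hc⟩ := finite_codes hL1 hL2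
  -- representatives of the idempotents
  have hrep : ∀ t : T, ∃ e : Matrix (Fin (D.rank N.X)) (Fin (D.rank N.X)) ℚ, e ∈ D.endo N.X ∧
      e * e = e ∧ ((∃ e' ∈ D.endo N.X, e' * e' = e' ∧ (∀ v ∈ L, e' *ᵥ v ∈ L) ∧ c e' = t) →
        (∀ v ∈ L, e *ᵥ v ∈ L) ∧ c e = t) := by
    intro t
    by_cases h : ∃ e' ∈ D.endo N.X, e' * e' = e' ∧ (∀ v ∈ L, e' *ᵥ v ∈ L) ∧ c e' = t
    · obtain ⟨e', h1, h2, h3, h4⟩ := h
      exact ⟨e', h1, h2, fun _ => ⟨h3, h4⟩⟩
    · exact ⟨0, (D.endo N.X).zero_mem, Matrix.mul_zero _, fun h' => (h h').elim⟩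
  choose e he1 he2 he3 using hrep
  choose M hM hM2 using fun t => exists_near_conj (D.endo N.X) hL1 hL2 (e t) (he1 t) (he2 t)
  have hne : ∀ t, NeZero (M t ^ 2) := fun t => ⟨pow_ne_zero _ (hM t).ne'⟩
  refine exists_family (T := Σ t : T, Set (Fin (D.rank N.X) → ZMod (M t ^ 2)))
    (fun A : D.ZMotive => IsFactor D A N)
    (fun A s => ∃ i ∈ D.Hom A.X N.X, ∃ p ∈ D.Hom N.X A.X, p * i = 1 ∧
      (∀ (ℓ : ℕ) [Fact ℓ.Prime], ∀ v ∈ A.L ℓ, i.map (algebraMap ℚ ℚ_[ℓ]) *ᵥ v ∈ N.L ℓ) ∧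
      (∀ (ℓ : ℕ) [Fact ℓ.Prime], ∀ v ∈ N.L ℓ, p.map (algebraMap ℚ ℚ_[ℓ]) *ᵥ v ∈ A.L ℓ) ∧
      ∃ b ∈ D.endo N.X, ∃ b' ∈ D.endo N.X, b * b' = 1 ∧ b' * b = 1 ∧ i * p = b * e s.1 * b' ∧
        Near (M s.1) (stdl _) (pre b L) ∧ code (M s.1) (pre b L) = s.2) D.Iso ?_ ?_
  · rintro A ⟨i, hi, p, hp, hpi, h1, h2⟩
    have hip : i * p ∈ D.endo N.X := D.mul_mem _ _ _ _ _ hi hp
    have hid : i * p * (i * p) = i * p := by
      rw [Matrix.mul_assoc, ← Matrix.mul_assoc p, hpi, Matrix.one_mul]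
    have hpres : ∀ v ∈ L, (i * p) *ᵥ v ∈ L := by
      intro v hv
      rw [hL, mem_rat] at hv ⊢
      intro ℓ _
      rw [toQl_mulVec, Matrix.map_mul, ← mulVec_mulVec]
      exact h1 ℓ _ (h2 ℓ _ (hv ℓ))
    obtain ⟨h3, h4⟩ := he3 (c (i * p)) ⟨i * p, hip, hid, hpres, rfl⟩
    obtain ⟨u, hu, u', hu', e1, e2, e3⟩ := conj_of_congr (D.endo N.X) hL1 hL2 (e (c (i * p)))
      (i * p) (he1 _) hip (he2 _) hid h3 hpres (hc _ _ h3 hpres h4)
    obtain ⟨b, hb, b', hb', e4, e5, e6, e7⟩ := hM2 (c (i * p)) u hu u' hu' e1 e2 (by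
      rw [← e3]
      exact hpres)
    exact ⟨⟨c (i * p), code (M (c (i * p))) (pre b L)⟩, i, hi, p, hp, hpi, h1, h2, b, hb, b', hb',
      e4, e5, e3.trans e6.symm, e7, rfl⟩
  · rintro A A' ⟨t, s⟩ ⟨i, hi, p, hp, hpi, h1, h2, b, hb, b', hb', e1, e2, e3, e4, e5⟩
      ⟨i', hi', p', hp', hpi', h1', h2', d, hd, d', hd', k1, k2, k3, k4, k5⟩
    dsimp only at e3 e4 e5 k3 k4 k5
    have hcode : code (M t) (pre b L) = code (M t) (pre d L) := e5.trans k5.symm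
    have hle : ∀ v ∈ pre b L, v ∈ pre d L := fun v hv => le_of_code (hM t) e4 k4 hcode v hv
    have hge : ∀ v ∈ pre d L, v ∈ pre b L := fun v hv => le_of_code (hM t) k4 e4 hcode.symm v hv
    -- `u = d b'`, `u' = b d'`
    have a1 : (d * b') * (b * d') = 1 := by
      rw [Matrix.mul_assoc, ← Matrix.mul_assoc b', e2, Matrix.one_mul, k1]
    have a2 : (b * d') * (d * b') = 1 := by
      rw [Matrix.mul_assoc, ← Matrix.mul_assoc d', k2, Matrix.one_mul, e1]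
    have hu : d * b' ∈ D.Hom N.X N.X := D.mul_mem _ _ _ _ _ hd hb'
    have hu' : b * d' ∈ D.Hom N.X N.X := D.mul_mem _ _ _ _ _ hb hd'
    have huL : ∀ (x y x' y' : Matrix (Fin (D.rank N.X)) (Fin (D.rank N.X)) ℚ), x * x' = 1 →
        y * y' = 1 → x' * x = 1 → (∀ v ∈ pre x L, v ∈ pre y L) →
        ∀ v ∈ L, (y * x') *ᵥ v ∈ L := by
      intro x y x' y' h3 h4 h5 h6 v hv
      have h7 := h6 (x' *ᵥ v) (by
        rw [mem_pre, mulVec_mulVec, h3, one_mulVec]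
        exact hv)
      rw [mem_pre, mulVec_mulVec] at h7
      exact h7
    have hadic : ∀ (x x' : Matrix (Fin (D.rank N.X)) (Fin (D.rank N.X)) ℚ), x ∈ D.Hom N.X N.X →
        x' ∈ D.Hom N.X N.X → x * x' = 1 → x' * x = 1 → (∀ v ∈ L, x *ᵥ v ∈ L) →
          ∀ (ℓ : ℕ) [Fact ℓ.Prime], ∀ v ∈ N.L ℓ, x.map (algebraMap ℚ ℚ_[ℓ]) *ᵥ v ∈ N.L ℓ := by
      intro x x' hx hx' h3 h4 h5 ℓ _ v hv
      have h6 := rat_inj N.isLattice (isLattice_push hx h4 h3 N.isLattice) (by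
        intro w hw
        rw [mem_rat]
        intro ℓ' _
        rw [mem_push h4 h3, ← toQl_mulVec]
        exact (mem_rat N.X N.L _).mp (h5 w hw) ℓ') ℓ v hv
      exact (mem_push h4 h3 N.L ℓ v).mp h6
    have hu1 := hadic (d * b') (b * d') hu hu' a1 a2 (huL b d b' d' e1 k1 e2 hle)
    have hu2 := hadic (b * d') (d * b') hu' hu a2 a1 (huL d b d' b' k1 e1 k2 hge)
    have e6 : (b * d') * (i' * p') * (d * b') = i * p := by
      rw [k3, e3]
      calc (b * d') * (d * e t * d') * (d * b') = b * (d' * d) * e t * (d' * d) * b' := by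
            simp only [Matrix.mul_assoc]
        _ = b * e t * b' := by rw [k2, Matrix.mul_one, Matrix.mul_one]
    have e7 : (d * b') * (i * p) * (b * d') = i' * p' := by
      rw [k3, e3]
      calc (d * b') * (b * e t * b') * (b * d') = d * (b' * b) * e t * (b' * b) * d' := by
            simp only [Matrix.mul_assoc]
        _ = d * e t * d' := by rw [e2, Matrix.mul_one, Matrix.mul_one]
    have a3 : (p * (b * d') * i') * (p' * (d * b') * i) = 1 := by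
      calc (p * (b * d') * i') * (p' * (d * b') * i) = p * ((b * d') * (i' * p') * (d * b')) * i := by
            simp only [Matrix.mul_assoc]
        _ = (p * i) * (p * i) := by rw [e6]; simp only [Matrix.mul_assoc]
        _ = 1 := by rw [hpi, Matrix.one_mul]
    have a4 : (p' * (d * b') * i) * (p * (b * d') * i') = 1 := by
      calc (p' * (d * b') * i) * (p * (b * d') * i') = p' * ((d * b') * (i * p) * (b * d')) * i' := by
            simp only [Matrix.mul_assoc]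
        _ = (p' * i') * (p' * i') := by rw [e7]; simp only [Matrix.mul_assoc]
        _ = 1 := by rw [hpi', Matrix.one_mul]
    refine ⟨p' * (d * b') * i, D.mul_mem _ _ _ _ _ (D.mul_mem _ _ _ _ _ hp' hu) hi,
      p * (b * d') * i', D.mul_mem _ _ _ _ _ (D.mul_mem _ _ _ _ _ hp hu') hi', a3, a4,
      fun ℓ _ v => ?_⟩
    have hf : ∀ v ∈ A.L ℓ, (p' * (d * b') * i).map (algebraMap ℚ ℚ_[ℓ]) *ᵥ v ∈ A'.L ℓ := by
      intro v hv
      rw [Matrix.map_mul, Matrix.map_mul, ← mulVec_mulVec, ← mulVec_mulVec]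
      exact h2' ℓ _ (hu1 ℓ _ (h1 ℓ v hv))
    have hg : ∀ v ∈ A'.L ℓ, (p * (b * d') * i').map (algebraMap ℚ ℚ_[ℓ]) *ᵥ v ∈ A.L ℓ := by
      intro v hv
      rw [Matrix.map_mul, Matrix.map_mul, ← mulVec_mulVec, ← mulVec_mulVec]
      exact h2 ℓ _ (hu2 ℓ _ (h1' ℓ v hv))
    constructor
    · exact hf v
    · intro hv
      have h3 := hg _ hv
      rw [mulVec_mulVec, ← Matrix.map_mul, a3, Matrix.map_one _ (map_zero _) (map_one _),
        one_mulVec] at h3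
      exact h3

end Pool.Agent.Q55.ZT
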