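import Pool.Agent.Q55.ZT.Zar
import Pool.Agent.Q55.ZT.Fac3

/-! # The finiteness of `ℤ`-motives follows from the case of principal polarizations -/

set_option autoImplicit false

namespace Pool.Agent.Q55.ZT

open Matrix Module Pool.Agent.Q55.SF

variable {G : Type} [Group G] {D : Motives G} {Q : Forms D}

theorem isPolarization_smul {X : D.Obj} {J : Matrix (Fin (D.rank X)) (Fin (D.rank X)) ℚ}
    (hJ : Q.IsPolarization X J) (k : ℕ) (hk : 0 < k) : Q.IsPolarization X ((k : ℚ) • J) where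
  mem := Submodule.smul_mem _ _ hJ.mem
  sign := by rw [transpose_smul, hJ.sign, smul_comm]
  iso := by
    obtain ⟨K, hK1, hK2, hK3⟩ := hJ.iso
    have hk0 : (k : ℚ) ≠ 0 := Nat.cast_ne_zero.mpr hk.ne'
    refine ⟨(k : ℚ)⁻¹ • K, ?_, ?_, fun J' hJ' => ?_⟩
    · rw [Matrix.smul_mul, Matrix.mul_smul, smul_smul, inv_mul_cancel₀ hk0, one_smul, hK1]
    · rw [Matrix.smul_mul, Matrix.mul_smul, smul_smul, mul_inv_cancel₀ hk0, one_smul, hK2]
    · rw [Matrix.smul_mul]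
      exact Submodule.smul_mem _ _ (hK3 J' hJ')
  posDef := by
    have h : ((k : ℚ) • J).map (algebraMap ℚ ℝ) * Q.weil X =
        (k : ℝ) • (J.map (algebraMap ℚ ℝ) * Q.weil X) := by
      have e : ((k : ℚ) • J).map (algebraMap ℚ ℝ) = (k : ℝ) • J.map (algebraMap ℚ ℝ) := by
        ext i j
        simp only [Matrix.map_apply, Matrix.smul_apply, smul_eq_mul, map_mul, map_natCast]
      rw [e, Matrix.smul_mul]
    rw [h]
    exact hJ.posDef.smul (by exact_mod_cast hk)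

/-- Zarhin's trick -/
theorem zarhin {τ : Type} [AddCommMonoid τ] {P : D.Obj → Prop} {h : D.Obj → τ}
    (hs : HasAdditiveSums D P h) (A : D.ZMotive) (hA : P A.X)
    {J : Matrix (Fin (D.rank A.X)) (Fin (D.rank A.X)) ℚ} (hJ : Q.IsPolarization A.X J) :
    ∃ B : D.ZMotive, P B.X ∧ h B.X = ∑ _a : Fin (4 + 4), h A.X ∧ Q.IsPrincipal B ∧
      IsFactor D A B := by
  obtain ⟨Z, hZ, hh, i, p, hi, hp, h1, h2, h3⟩ := hs (4 + 4) (fun _ => A.X) (fun _ => hA)
  let e : Dec D A.X Z (4 + 4) := ⟨i, p, hi, hp, h1, h2, h3⟩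
  obtain ⟨k, hk, hkL⟩ := exists_scale J A.isLattice
  have hJ' := isPolarization_smul hJ k hk
  obtain ⟨K, hK1, hK2, -⟩ := hJ'.iso
  have hM := isLattice_adual hJ'.mem hK1 hK2 A.isLattice
  obtain ⟨m, hm, hm'⟩ := exists_nat_smul_mem A.isLattice hM
  obtain ⟨a, b, c, d, habcd⟩ := Nat.sum_four_squares (m - 1)
  have hs1 : ((a : ℤ) ^ 2 + (b : ℤ) ^ 2 + (c : ℤ) ^ 2 + (d : ℤ) ^ 2) + 1 = m := by
    have h4 : ((a ^ 2 + b ^ 2 + c ^ 2 + d ^ 2 : ℕ) : ℤ) = ((m - 1 : ℕ) : ℤ) := by rw [habcd]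
    rw [Nat.cast_sub hm] at h4
    push_cast at h4
    linarith
  have hmz : ∀ (ℓ : ℕ) [Fact ℓ.Prime], ∀ v ∈ adual ((k : ℚ) • J) A.L ℓ,
      (((a : ℤ) ^ 2 + (b : ℤ) ^ 2 + (c : ℤ) ^ 2 + (d : ℤ) ^ 2) + 1) • v ∈ A.L ℓ := by
    intro ℓ _ v hv
    rw [hs1, zsmul_eq, Int.cast_natCast]
    exact hm' ℓ v hv
  let I := quat a b c d
  refine ⟨⟨Z, fun ℓ _ => zarLat e I A.L (fun ℓ _ => adual ((k : ℚ) • J) A.L ℓ) ℓ,
    isLattice_zarLat e I A.isLattice hM hkL⟩, hZ, hh, ?_, ?_⟩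
  · exact ⟨e.sumForm ((k : ℚ) • J), e.isPolarization_sumForm hJ', fun ℓ _ v =>
      zarLat_selfDual e I _ (quat_left a b c d) (quat_right a b c d) hJ' A.isLattice hkL hmz ℓ v⟩
  · refine ⟨i (Fin.natAdd 4 0), hi _,
      p (Fin.natAdd 4 0) - ∑ b : Fin 4, (I 0 b : ℚ) • p (Fin.castAdd 4 b), ?_, ?_, ?_, ?_⟩
    · exact Submodule.sub_mem _ (hp _) (Submodule.sum_mem _ fun b _ =>
        Submodule.smul_mem _ _ (hp _))
    · rw [Matrix.sub_mul, h1, Matrix.sum_mul]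
      have h5 : ∀ b : Fin 4, (I 0 b : ℚ) • p (Fin.castAdd 4 b) * i (Fin.natAdd 4 0) = 0 := by
        intro b
        rw [Matrix.smul_mul, h2 _ _ (fun h5 => by
          have h6 := congrArg Fin.val h5
          rw [Fin.val_castAdd, Fin.val_natAdd] at h6
          omega), smul_zero]
      rw [Finset.sum_congr rfl fun b _ => h5 b, Finset.sum_const_zero, sub_zero]
    · intro ℓ _ v hv
      have hcl : ∀ b : Fin 4, e.co ℓ (Fin.castAdd 4 b) (e.inc ℓ (Fin.natAdd 4 0) v) = 0 := fun b =>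
        e.co_inc_ne ℓ _ _ (fun h5 => by
          have h6 := congrArg Fin.val h5
          rw [Fin.val_castAdd, Fin.val_natAdd] at h6
          omega) v
      have hcr : ∀ b : Fin 4, e.co ℓ (Fin.natAdd 4 b) (e.inc ℓ (Fin.natAdd 4 0) v) =
          if b = 0 then v else 0 := by
        intro b
        by_cases hb : b = 0
        · rw [if_pos hb, hb, e.co_inc_same]
        · rw [if_neg hb]
          exact e.co_inc_ne ℓ _ _ (fun h5 => hb (Fin.natAdd_injective 4 4 h5)) v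
      change e.inc ℓ (Fin.natAdd 4 0) v ∈
        zarLat e I A.L (fun ℓ _ => adual ((k : ℚ) • J) A.L ℓ) ℓ
      refine ⟨fun b => ?_, fun b => ?_⟩
      · rw [hcl]
        exact Submodule.zero_mem _
      · simp only [hcl, hcr, smul_zero, Finset.sum_const_zero, sub_zero]
        by_cases hb : b = 0
        · rw [if_pos hb]
          exact hv
        · rw [if_neg hb]
          exact Submodule.zero_mem _
    · intro ℓ _ v hv
      have h6 := hv.2 0
      have h7 : (p (Fin.natAdd 4 0) - ∑ b : Fin 4, (I 0 b : ℚ) • p (Fin.castAdd 4 b)).map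
          (algebraMap ℚ ℚ_[ℓ]) *ᵥ v = e.co ℓ (Fin.natAdd 4 0) v -
            ∑ b : Fin 4, I 0 b • e.co ℓ (Fin.castAdd 4 b) v := by
        have h8 : (p (Fin.natAdd 4 0) - ∑ b : Fin 4, (I 0 b : ℚ) • p (Fin.castAdd 4 b)).map
            (algebraMap ℚ ℚ_[ℓ]) = (p (Fin.natAdd 4 0)).map (algebraMap ℚ ℚ_[ℓ]) -
              ∑ b : Fin 4, (I 0 b : ℚ_[ℓ]) • (p (Fin.castAdd 4 b)).map (algebraMap ℚ ℚ_[ℓ]) := by
          ext x y
          simp only [Matrix.map_apply, Matrix.sub_apply, Matrix.sum_apply, Matrix.smul_apply,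
            map_sub, map_sum, smul_eq_mul, map_mul, map_intCast]
        rw [h8, Matrix.sub_mulVec, Matrix.sum_mulVec]
        congr 1
        refine Finset.sum_congr rfl fun b _ => ?_
        rw [zsmul_eq, smul_mulVec]
        rfl
      rw [h7]
      exact h6

theorem isFactor_of_iso {A B N : D.ZMotive} (h : IsFactor D A B) (hN : D.Iso N B) :
    IsFactor D A N := by
  obtain ⟨i, hi, p, hp, h1, h2, h3⟩ := h
  obtain ⟨f, hf, g, hg, h4, h5, h6⟩ := hN
  refine ⟨g * i, D.mul_mem _ _ _ _ _ hg hi, p * f, D.mul_mem _ _ _ _ _ hp hf, ?_, ?_, ?_⟩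
  · rw [Matrix.mul_assoc, ← Matrix.mul_assoc f, h5, Matrix.one_mul, h1]
  · intro ℓ _ v hv
    rw [h6, mulVec_mulVec, ← Matrix.map_mul, ← Matrix.mul_assoc, h5, Matrix.one_mul]
    exact h2 ℓ v hv
  · intro ℓ _ v hv
    rw [Matrix.map_mul, ← mulVec_mulVec]
    exact h3 ℓ _ ((h6 ℓ v).mp hv)

theorem finiteness_of_principal {τ : Type} [AddCommMonoid τ] {P : D.Obj → Prop} {h : D.Obj → τ}
    (hs : HasAdditiveSums D P h) (hpol : ∀ X, P X → ∃ J, Q.IsPolarization X J)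
    (hfin : Q.PrincipalFiniteness P h) : D.Finiteness P h := by
  intro t
  obtain ⟨m, N, hN⟩ : ∃ (m : ℕ) (N : Fin m → {B : D.ZMotive // P B.X}),
      ∀ B : {B : D.ZMotive // P B.X}, (h B.1.X = ∑ _a : Fin (4 + 4), t ∧ Q.IsPrincipal B.1) →
        ∃ i, D.Iso (N i).1 B.1 := by
    obtain ⟨m, N, hN⟩ := hfin (∑ _a : Fin (4 + 4), t)
    refine exists_family (T := Fin m)
      (fun B : {B : D.ZMotive // P B.X} => h B.1.X = ∑ _a : Fin (4 + 4), t ∧ Q.IsPrincipal B.1)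
      (fun B i => D.Iso (N i) B.1) (fun A B => D.Iso A.1 B.1)
      (fun B hB => hN B.1 B.2 hB.1 hB.2) ?_
    intro A B i h1 h2
    exact iso_trans D (iso_symm D h1) h2
  choose r F hF using fun i => finite_factors (N i).1
    (semisimple_of_polarization (hpol _ (N i).2).choose_spec)
  refine exists_family (T := Σ i : Fin m, Fin (r i)) (fun A : D.ZMotive => P A.X ∧ h A.X = t)
    (fun A s => D.Iso (F s.1 s.2) A) D.Iso ?_ ?_ |>.imp
    fun m' h1 => h1.imp fun B' h2 A hA hA' => h2 A ⟨hA, hA'⟩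
  · rintro A ⟨hA, hA'⟩
    obtain ⟨J, hJ⟩ := hpol A.X hA
    obtain ⟨B, hB, hB', hB2, hB3⟩ := zarhin hs A hA hJ
    rw [hA'] at hB'
    obtain ⟨i, hi⟩ := hN ⟨B, hB⟩ ⟨hB', hB2⟩
    obtain ⟨j, hj⟩ := hF i A (isFactor_of_iso hB3 hi)
    exact ⟨⟨i, j⟩, hj⟩
  · intro A A' s h1 h2
    exact iso_trans D (iso_symm D h1) h2

end Pool.Agent.Q55.ZT
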