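import Pool.Agent.Q55.SF.Back

/-!
# Polarizations of pure motives with lattices: definitions
-/

set_option autoImplicit false

namespace Pool.Agent.Q55.ZT

open Matrix Pool.Agent.Q55.SF

variable {G : Type} [Group G]

/-- The bilinear forms of weight `w` on pure motives: for each motive `X` the space `form X` of the
morphisms `X ⊗ X → ℚ(-w)`, as bilinear forms on the Betti realisation `ℚ ^ (rank X)`; the Weil
operators of the Hodge structures. -/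
structure Forms (D : Motives G) where
  /-- the weight -/
  weight : ℕ
  /-- the morphisms `X ⊗ X → ℚ(-w)`, as matrices -/
  form : ∀ X : D.Obj, Submodule ℚ (Matrix (Fin (D.rank X)) (Fin (D.rank X)) ℚ)
  /-- the composition with `f ⊗ g` -/
  pull : ∀ (X Y : D.Obj) (J : Matrix (Fin (D.rank Y)) (Fin (D.rank Y)) ℚ)
    (f g : Matrix (Fin (D.rank Y)) (Fin (D.rank X)) ℚ), J ∈ form Y → f ∈ D.Hom X Y →
      g ∈ D.Hom X Y → f.transpose * J * g ∈ form X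
  /-- the Galois action on `ℤ_ℓ(-w)` -/
  mult : ∀ (ℓ : ℕ) [Fact ℓ.Prime], G → ℤ_[ℓ]ˣ
  /-- the forms are equivariant -/
  equivariant : ∀ (X : D.Obj) (J : Matrix (Fin (D.rank X)) (Fin (D.rank X)) ℚ), J ∈ form X →
    ∀ (ℓ : ℕ) [Fact ℓ.Prime] (g : G),
      (D.act X ℓ g).transpose * J.map (algebraMap ℚ ℚ_[ℓ]) * D.act X ℓ g =
        algebraMap ℤ_[ℓ] ℚ_[ℓ] (mult ℓ g : ℤ_[ℓ]) • J.map (algebraMap ℚ ℚ_[ℓ])
  /-- the Weil operator on `ℝ ^ (rank X)` -/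
  weil : ∀ X : D.Obj, Matrix (Fin (D.rank X)) (Fin (D.rank X)) ℝ
  /-- the morphisms commute with the Weil operators -/
  weil_comm : ∀ (X Y : D.Obj) (f : Matrix (Fin (D.rank Y)) (Fin (D.rank X)) ℚ), f ∈ D.Hom X Y →
    f.map (algebraMap ℚ ℝ) * weil X = weil Y * f.map (algebraMap ℚ ℝ)

namespace Forms

variable {D : Motives G} (Q : Forms D)

/-- `J` is a polarization of the motive `X`: a `(-1) ^ w`-symmetric form `X ⊗ X → ℚ(-w)` which gives
an isomorphism from `X` to its dual twisted by `-w` (that is, the forms on `X` are the forms `J f`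
with endomorphisms `f` of `X`), and such that the real form `J(x, C y)`, `C` the Weil operator, is
symmetric and positive definite. -/
structure IsPolarization (X : D.Obj) (J : Matrix (Fin (D.rank X)) (Fin (D.rank X)) ℚ) : Prop where
  mem : J ∈ Q.form X
  sign : J.transpose = (-1 : ℚ) ^ Q.weight • J
  iso : ∃ K : Matrix (Fin (D.rank X)) (Fin (D.rank X)) ℚ, K * J = 1 ∧ J * K = 1 ∧
    ∀ J' ∈ Q.form X, K * J' ∈ D.Hom X X
  posDef : (J.map (algebraMap ℚ ℝ) * Q.weil X).PosDef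

/-- The pure `ℤ`-motive `A` is principally polarized: it has a polarization for which the lattice is
self-dual at all `ℓ`. -/
def IsPrincipal (A : D.ZMotive) : Prop :=
  ∃ J, Q.IsPolarization A.X J ∧ ∀ (ℓ : ℕ) [Fact ℓ.Prime] (v : Fin (D.rank A.X) → ℚ_[ℓ]),
    v ∈ A.L ℓ ↔ ∀ u ∈ A.L ℓ, ‖u ⬝ᵥ J.map (algebraMap ℚ ℚ_[ℓ]) *ᵥ v‖ ≤ 1

/-- The assertion Q1 for the principally polarized `ℤ`-motives with the property `P`. -/
def PrincipalFiniteness {τ : Type} (P : D.Obj → Prop) (h : D.Obj → τ) : Prop :=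
  ∀ t : τ, ∃ (m : ℕ) (B : Fin m → D.ZMotive), ∀ A : D.ZMotive, P A.X → h A.X = t →
    Q.IsPrincipal A → ∃ i, D.Iso (B i) A

end Forms

/-- The property `P` is stable under finite direct sums, and the invariant `h` (the Hodge numbers) is
additive. -/
def HasAdditiveSums (D : Motives G) {τ : Type} [AddCommMonoid τ] (P : D.Obj → Prop)
    (h : D.Obj → τ) : Prop :=
  ∀ (r : ℕ) (X : Fin r → D.Obj), (∀ a, P (X a)) → ∃ Z : D.Obj, P Z ∧ h Z = ∑ a, h (X a) ∧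
    ∃ (i : ∀ a, Matrix (Fin (D.rank Z)) (Fin (D.rank (X a))) ℚ)
      (p : ∀ a, Matrix (Fin (D.rank (X a))) (Fin (D.rank Z)) ℚ),
      (∀ a, i a ∈ D.Hom (X a) Z) ∧ (∀ a, p a ∈ D.Hom Z (X a)) ∧
        (∀ a, p a * i a = 1) ∧ (∀ a b, a ≠ b → p a * i b = 0) ∧ ∑ a, i a * p a = 1

/-- The `ℤ`-motive `A` is a direct factor of the `ℤ`-motive `B`. -/
def IsFactor (D : Motives G) (A B : D.ZMotive) : Prop :=
  ∃ i ∈ D.Hom A.X B.X, ∃ p ∈ D.Hom B.X A.X, p * i = 1 ∧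
    (∀ (ℓ : ℕ) [Fact ℓ.Prime], ∀ v ∈ A.L ℓ, i.map (algebraMap ℚ ℚ_[ℓ]) *ᵥ v ∈ B.L ℓ) ∧
    ∀ (ℓ : ℕ) [Fact ℓ.Prime], ∀ v ∈ B.L ℓ, p.map (algebraMap ℚ ℚ_[ℓ]) *ᵥ v ∈ A.L ℓ

theorem HasAdditiveSums.hasSums {D : Motives G} {τ : Type} [AddCommMonoid τ] {P : D.Obj → Prop}
    {h : D.Obj → τ} (hs : HasAdditiveSums D P h) : D.HasSums P := by
  intro r X hX
  obtain ⟨Z, hZ, -, i, p, h1⟩ := hs r X hX
  exact ⟨Z, hZ, i, p, h1⟩

end Pool.Agent.Q55.ZT
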