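import Pool.Agent.Q55.ZT.Loc

/-! # Dual lattices, adelic version -/

set_option autoImplicit false

namespace Pool.Agent.Q55.ZT

open Matrix Module Pool.Agent.Q55.SF

variable {G : Type} [Group G] {D : Motives G} {Q : Forms D}

theorem act_mul_inv (X : D.Obj) (ℓ : ℕ) [Fact ℓ.Prime] (g : G) :
    D.act X ℓ g * D.act X ℓ g⁻¹ = 1 := by
  unfold Motives.act
  rw [← Matrix.map_mul, ← Units.val_mul, ← map_mul, mul_inv_cancel, map_one, Units.val_one,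
    Matrix.map_one _ (map_zero _) (map_one _)]

/-- two forms of the same matrix identity over `ℚ` and `ℚ_ℓ` -/
theorem map_mul_one {n : ℕ} {K J : Matrix (Fin n) (Fin n) ℚ} (h : K * J = 1) (ℓ : ℕ)
    [Fact ℓ.Prime] : K.map (algebraMap ℚ ℚ_[ℓ]) * J.map (algebraMap ℚ ℚ_[ℓ]) = 1 := by
  rw [← Matrix.map_mul, h, Matrix.map_one _ (map_zero _) (map_one _)]

/-- the dual of an adelic lattice -/
noncomputable def adual {X : D.Obj} (J : Matrix (Fin (D.rank X)) (Fin (D.rank X)) ℚ)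
    (L : ∀ (ℓ : ℕ) [Fact ℓ.Prime], Submodule ℤ_[ℓ] (Fin (D.rank X) → ℚ_[ℓ])) (ℓ : ℕ)
    [Fact ℓ.Prime] : Submodule ℤ_[ℓ] (Fin (D.rank X) → ℚ_[ℓ]) :=
  dual (J.map (algebraMap ℚ ℚ_[ℓ])) (L ℓ)

theorem isLattice_adual {X : D.Obj} {J K : Matrix (Fin (D.rank X)) (Fin (D.rank X)) ℚ}
    (hJ : J ∈ Q.form X) (hK1 : K * J = 1) (hK2 : J * K = 1)
    {L : ∀ (ℓ : ℕ) [Fact ℓ.Prime], Submodule ℤ_[ℓ] (Fin (D.rank X) → ℚ_[ℓ])}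
    (hL : D.IsLattice X L) : D.IsLattice X (fun ℓ _ => adual J L ℓ) where
  fg ℓ _ := (dual_fg _ _ (map_mul_one hK1 ℓ) (map_mul_one hK2 ℓ) _ (hL.fg ℓ) (hL.span ℓ)).1
  span ℓ _ := (dual_fg _ _ (map_mul_one hK1 ℓ) (map_mul_one hK2 ℓ) _ (hL.fg ℓ) (hL.span ℓ)).2
  stable ℓ _ g v hv u hu := by
    have h1 := hL.stable ℓ g⁻¹ u hu
    have h2 := hv _ h1
    have h3 := Q.equivariant X J hJ ℓ g
    have e : u ⬝ᵥ J.map (algebraMap ℚ ℚ_[ℓ]) *ᵥ (D.act X ℓ g *ᵥ v) =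
        (Q.mult ℓ g : ℤ_[ℓ]) • ((D.act X ℓ g⁻¹ *ᵥ u) ⬝ᵥ J.map (algebraMap ℚ ℚ_[ℓ]) *ᵥ v) := by
      have e1 : (Q.mult ℓ g : ℤ_[ℓ]) • ((D.act X ℓ g⁻¹ *ᵥ u) ⬝ᵥ J.map (algebraMap ℚ ℚ_[ℓ]) *ᵥ v) =
          (D.act X ℓ g⁻¹ *ᵥ u) ⬝ᵥ ((algebraMap ℤ_[ℓ] ℚ_[ℓ] (Q.mult ℓ g : ℤ_[ℓ]) •
            J.map (algebraMap ℚ ℚ_[ℓ])) *ᵥ v) := by
        rw [smul_mulVec, dotProduct_smul]
        rfl
      rw [e1, ← h3, ← mulVec_mulVec, ← mulVec_mulVec,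
        Matrix.dotProduct_mulVec (D.act X ℓ g⁻¹ *ᵥ u) (D.act X ℓ g).transpose,
        Matrix.vecMul_transpose, mulVec_mulVec u, act_mul_inv, one_mulVec]
    rw [e]
    exact norm_smul_int _ _ h2
  standard := by
    obtain ⟨N, hN⟩ := hL.standard
    obtain ⟨N1, h1⟩ := exists_bound (r := 1) fun _ => J
    obtain ⟨N2, h2⟩ := exists_bound (r := 1) fun _ => K
    refine ⟨max N (max N1 N2), fun ℓ _ hℓ v => ?_⟩
    have hJ' := h1 ℓ (lt_of_le_of_lt ((le_max_left _ _).trans (le_max_right _ _)) hℓ) 0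
    have hK' := h2 ℓ (lt_of_le_of_lt ((le_max_right _ _).trans (le_max_right _ _)) hℓ) 0
    have hN' := hN ℓ (lt_of_le_of_lt (le_max_left _ _) hℓ)
    constructor
    · intro hv
      have h3 : ∀ i, ‖(J.map (algebraMap ℚ ℚ_[ℓ]) *ᵥ v) i‖ ≤ 1 := by
        intro i
        have h4 : (Pi.single i 1 : Fin (D.rank X) → ℚ_[ℓ]) ∈ L ℓ := by
          rw [hN']
          intro j
          by_cases hij : j = i
          · rw [hij, Pi.single_eq_same, norm_one]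
          · rw [Pi.single_eq_of_ne hij, norm_zero]
            exact zero_le_one
        have h5 := hv _ h4
        rwa [single_dotProduct, one_mul] at h5
      intro i
      have h6 := norm_mulVec (K.map (algebraMap ℚ ℚ_[ℓ])) hK' _ h3 i
      rwa [mulVec_mulVec, map_mul_one hK1 ℓ, one_mulVec] at h6
    · intro hv u hu
      exact norm_dot_le _ _ ((hN' u).mp hu) (norm_mulVec _ hJ' _ hv)

/-- a lattice between two lattices -/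
theorem isLattice_between {X : D.Obj}
    {S T L : ∀ (ℓ : ℕ) [Fact ℓ.Prime], Submodule ℤ_[ℓ] (Fin (D.rank X) → ℚ_[ℓ])}
    (hS : D.IsLattice X S) (hT : D.IsLattice X T) (h1 : ∀ (ℓ : ℕ) [Fact ℓ.Prime], S ℓ ≤ L ℓ)
    (h2 : ∀ (ℓ : ℕ) [Fact ℓ.Prime], L ℓ ≤ T ℓ)
    (h3 : ∀ (ℓ : ℕ) [Fact ℓ.Prime] (g : G), ∀ v ∈ L ℓ, D.act X ℓ g *ᵥ v ∈ L ℓ) :
    D.IsLattice X L where
  fg ℓ _ := by
    have : Module.Finite ℤ_[ℓ] (T ℓ) := Module.Finite.iff_fg.mpr (hT.fg ℓ)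
    exact Submodule.FG.of_le_of_isNoetherian (h2 ℓ)
  span ℓ _ v := by
    obtain ⟨k, hk⟩ := hS.span ℓ v
    exact ⟨k, h1 ℓ hk⟩
  stable ℓ _ g v hv := h3 ℓ g v hv
  standard := by
    obtain ⟨N1, hN1⟩ := hS.standard
    obtain ⟨N2, hN2⟩ := hT.standard
    refine ⟨max N1 N2, fun ℓ _ hℓ v => ⟨fun hv => ?_, fun hv => ?_⟩⟩
    · exact (hN2 ℓ (lt_of_le_of_lt (le_max_right _ _) hℓ) v).mp (h2 ℓ hv)
    · exact h1 ℓ ((hN1 ℓ (lt_of_le_of_lt (le_max_left _ _) hℓ) v).mpr hv)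

/-- two lattices are commensurable -/
theorem exists_nat_smul_mem {X : D.Obj}
    {S T : ∀ (ℓ : ℕ) [Fact ℓ.Prime], Submodule ℤ_[ℓ] (Fin (D.rank X) → ℚ_[ℓ])}
    (hS : D.IsLattice X S) (hT : D.IsLattice X T) : ∃ m : ℕ, 0 < m ∧
      ∀ (ℓ : ℕ) [Fact ℓ.Prime], ∀ v ∈ T ℓ, (m : ℚ_[ℓ]) • v ∈ S ℓ := by
  obtain ⟨k, N, hk, h1, -⟩ := lattice_const hS
  obtain ⟨k', N', hk', -, h2'⟩ := lattice_const hT
  obtain ⟨m, hm, hm1, -⟩ := exists_prod (fun ℓ _ => k ℓ + k' ℓ) (max N N') (fun ℓ _ hℓ => by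
    rw [hk ℓ (lt_of_le_of_lt (le_max_left _ _) hℓ), hk' ℓ (lt_of_le_of_lt (le_max_right _ _) hℓ)]) 0
  refine ⟨m, hm, fun ℓ hℓ v hv => ?_⟩
  refine mem_of_dvd_l (S ℓ) (hm1 ℓ hℓ.out.ne_zero) v ?_
  rw [pow_add, mul_smul]
  exact h1 ℓ _ fun i => h2' ℓ v hv i

/-- after multiplication of the form with an integer, a lattice is contained in its dual -/
theorem exists_scale {X : D.Obj} (J : Matrix (Fin (D.rank X)) (Fin (D.rank X)) ℚ)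
    {L : ∀ (ℓ : ℕ) [Fact ℓ.Prime], Submodule ℤ_[ℓ] (Fin (D.rank X) → ℚ_[ℓ])}
    (hL : D.IsLattice X L) : ∃ k : ℕ, 0 < k ∧ ∀ (ℓ : ℕ) [Fact ℓ.Prime],
      L ℓ ≤ adual ((k : ℚ) • J) L ℓ := by
  obtain ⟨k, N, hk, -, h2⟩ := lattice_const hL
  obtain ⟨m, hm, hm1, -⟩ := exists_prod k N hk 0
  obtain ⟨d, hd, A, hA⟩ := exists_den J
  refine ⟨m * m * d, by positivity, fun ℓ hℓ v hv u hu => ?_⟩
  have hint : ∀ w ∈ L ℓ, ∀ i, ‖((m : ℚ_[ℓ]) • w) i‖ ≤ 1 := by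
    intro w hw i
    obtain ⟨t, ht⟩ := hm1 ℓ hℓ.out.ne_zero
    have h3 := h2 ℓ w hw i
    rw [ht, Nat.cast_mul, Nat.cast_pow, mul_comm, mul_smul]
    change ‖(t : ℚ_[ℓ]) * ((ℓ : ℚ_[ℓ]) ^ k ℓ * w i)‖ ≤ 1
    rw [norm_mul]
    exact mul_le_one₀ (norm_nat_le t) (norm_nonneg _) h3
  have hAn : ∀ i j, ‖(((d : ℚ) • J).map (algebraMap ℚ ℚ_[ℓ])) i j‖ ≤ 1 := by
    intro i j
    rw [← hA, Matrix.map_apply, Matrix.map_apply, eq_intCast, map_intCast]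
    exact Padic.norm_int_le_one _
  have e : u ⬝ᵥ ((((m * m * d : ℕ) : ℚ) • J).map (algebraMap ℚ ℚ_[ℓ])) *ᵥ v =
      ((m : ℚ_[ℓ]) • u) ⬝ᵥ (((d : ℚ) • J).map (algebraMap ℚ ℚ_[ℓ])) *ᵥ ((m : ℚ_[ℓ]) • v) := by
    have e1 : (((m * m * d : ℕ) : ℚ) • J).map (algebraMap ℚ ℚ_[ℓ]) =
        ((m : ℚ_[ℓ]) * (m : ℚ_[ℓ])) • (((d : ℚ) • J).map (algebraMap ℚ ℚ_[ℓ])) := by
      ext i j
      simp only [Matrix.map_apply, Matrix.smul_apply, smul_eq_mul, map_mul, map_natCast,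
        Nat.cast_mul]
      ring
    rw [e1, smul_mulVec, dotProduct_smul, mulVec_smul, smul_dotProduct, dotProduct_smul,
      smul_smul]
  change ‖u ⬝ᵥ ((((m * m * d : ℕ) : ℚ) • J).map (algebraMap ℚ ℚ_[ℓ])) *ᵥ v‖ ≤ 1
  rw [e]
  exact norm_dot_le _ _ (hint u hu) (norm_mulVec _ hAn _ (hint v hv))

end Pool.Agent.Q55.ZT
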