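import Pool.Agent.Q55.ZT.Defs

/-! # A `ℤ`-motive has only finitely many direct factors up to isomorphism -/

set_option autoImplicit false

namespace Pool.Agent.Q55.ZT

open Matrix Pool.Agent.Q55.SF

/-- **Jordan–Zassenhaus** for lattices stable under the commutant (variable denominators). -/
theorem jz_matrix {n : ℕ} (E : Subalgebra ℚ (Matrix (Fin n) (Fin n) ℚ))
    [IsSemisimpleRing E] (N : Matrix (Fin n) (Fin n) ℚ → ℕ) (hN : ∀ c, 0 < N c) :
    ∃ M : ℕ, 0 < M ∧ ∀ L : AddSubgroup (Fin n → ℚ), L.FG → Full L →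
      (∀ c : Matrix (Fin n) (Fin n) ℚ, (∀ e ∈ E, c * e = e * c) → ∀ v ∈ L, N c • (c *ᵥ v) ∈ L) →
        ∃ g ∈ E, ∃ g' ∈ E, g * g' = 1 ∧ g' * g = 1 ∧
          (∀ w ∈ stdl n, M • (g *ᵥ w) ∈ L) ∧ ∀ v, g *ᵥ v ∈ L → M • v ∈ stdl n := by
  let T : Matrix (Fin n) (Fin n) ℚ ≃ₐ[ℚ] Module.End ℚ (Fin n → ℚ) := Matrix.toLinAlgEquiv'
  let A : Subalgebra ℚ (Module.End ℚ (Fin n → ℚ)) := E.map T.toAlgHom
  have hA : IsSemisimpleRing A := by
    let e : E ≃ₐ[ℚ] A := E.equivMapOfInjective T.toAlgHom T.injective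
    exact e.toRingEquiv.isSemisimpleRing
  have ht : IsScalarTower ℚ A (Fin n → ℚ) := ⟨fun r a v => rfl⟩
  have hC : ∀ c : Module.End A (Fin n → ℚ), ∃ C : Matrix (Fin n) (Fin n) ℚ,
      (∀ v, C *ᵥ v = c v) ∧ ∀ e ∈ E, C * e = e * C := by
    intro c
    obtain ⟨C, hC⟩ := T.surjective (c.restrictScalars ℚ)
    have h1 : ∀ v, C *ᵥ v = c v := fun v => LinearMap.congr_fun hC v
    refine ⟨C, h1, fun e he => ?_⟩
    apply T.injective
    rw [map_mul, map_mul]
    refine LinearMap.ext fun v => ?_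
    change C *ᵥ (e *ᵥ v) = e *ᵥ (C *ᵥ v)
    rw [h1, h1]
    exact c.map_smul (⟨T e, ⟨e, he, rfl⟩⟩ : A) v
  choose C hC1 hC2 using hC
  obtain ⟨L₀, h1, h2, M, hM, h3⟩ := jordan_zassenhaus (A := A) (V := Fin n → ℚ)
    (fun c => N (C c)) (fun c => hN (C c))
  obtain ⟨m, hm, hm1, hm2⟩ := exists_near (stdl_fg n) (stdl_full n) h1 h2
  refine ⟨M * m, Nat.mul_pos hM hm, fun L hL1 hL2 hst => ?_⟩
  obtain ⟨g, hg1, hg2, hg3⟩ := h3 L hL1 hL2 (by
    intro c v hv
    have h4 := hst (C c) (hC2 c) v hv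
    rw [hC1] at h4
    exact h4)
  have hmat : ∀ h : (Fin n → ℚ) →+ (Fin n → ℚ), (∀ (c : Module.End A (Fin n → ℚ)) v,
      h (c v) = c (h v)) → ∃ x ∈ E, ∀ v, x *ᵥ v = h v := by
    intro h hh
    let hl : (Fin n → ℚ) →ₗ[ℚ] (Fin n → ℚ) := h.toRatLinearMap
    obtain ⟨x, hx⟩ := T.surjective hl
    have hx' : ∀ v, x *ᵥ v = h v := fun v => LinearMap.congr_fun hx v
    refine ⟨x, double_centralizer_matrix E x fun c hc => ?_, hx'⟩
    let c' : Module.End A (Fin n → ℚ) :=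
      { toFun := fun v => c *ᵥ v
        map_add' := fun v w => mulVec_add c v w
        map_smul' := by
          rintro ⟨_, e, he, rfl⟩ v
          change c *ᵥ (e *ᵥ v) = e *ᵥ (c *ᵥ v)
          rw [mulVec_mulVec, mulVec_mulVec, hc e he] }
    apply T.injective
    rw [map_mul, map_mul]
    refine LinearMap.ext fun v => ?_
    change c *ᵥ (x *ᵥ v) = x *ᵥ (c *ᵥ v)
    rw [hx', hx']
    exact (hh c' v).symm
  obtain ⟨x, hxE, hx⟩ := hmat g.toAddMonoidHom hg1
  obtain ⟨x', hxE', hx'⟩ := hmat g.symm.toAddMonoidHom (by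
    intro c v
    apply g.injective
    change g (g.symm (c v)) = g (c (g.symm v))
    rw [hg1, g.apply_symm_apply, g.apply_symm_apply])
  have hx : ∀ v, x *ᵥ v = g v := hx
  have hx' : ∀ v, x' *ᵥ v = g.symm v := hx'
  have hinj : ∀ a b : Matrix (Fin n) (Fin n) ℚ, (∀ v, a *ᵥ v = b *ᵥ v) → a = b := fun a b h =>
    T.injective (LinearMap.ext h)
  refine ⟨x, hxE, x', hxE', hinj _ _ fun v => ?_, hinj _ _ fun v => ?_, fun w hw => ?_,
    fun v hv => ?_⟩
  · rw [← mulVec_mulVec, hx, hx', g.apply_symm_apply, one_mulVec]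
  · rw [← mulVec_mulVec, hx, hx', g.symm_apply_apply, one_mulVec]
  · rw [hx, mul_smul, ← map_nsmul]
    exact hg2 _ (hm1 w hw)
  · rw [hx] at hv
    obtain ⟨w, hw, h4⟩ := hg3 _ hv
    rw [← map_nsmul] at h4
    rw [mul_comm, mul_smul, g.injective h4]
    exact hm2 w hw

/-- the algebra generated by the commutant and a commuting idempotent -/
def pairHom {n : ℕ} (E : Subalgebra ℚ (Matrix (Fin n) (Fin n) ℚ)) (e : Matrix (Fin n) (Fin n) ℚ)
    (he : ∀ c ∈ cent E, c * e = e * c) (hid : e * e = e) :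
    (cent E × cent E) →ₐ[ℚ] Matrix (Fin n) (Fin n) ℚ where
  toFun x := x.1.1 * e + x.2.1 * (1 - e)
  map_one' := by
    change (1 : Matrix (Fin n) (Fin n) ℚ) * e + 1 * (1 - e) = 1
    rw [Matrix.one_mul, Matrix.one_mul, add_sub_cancel]
  map_mul' x y := by
    change (x.1.1 * y.1.1) * e + (x.2.1 * y.2.1) * (1 - e) = _
    have h1 := he y.1.1 y.1.2
    have h2 := he y.2.1 y.2.2
    have h3 : e * (1 - e) = 0 := by rw [mul_sub, mul_one, hid, sub_self]
    have h4 : (1 - e) * e = 0 := by rw [sub_mul, one_mul, hid, sub_self]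
    have h5 : (1 - e) * (1 - e) = 1 - e := by rw [sub_mul, one_mul, h3, sub_zero]
    have h6 : y.2.1 * (1 - e) = (1 - e) * y.2.1 := by rw [mul_sub, sub_mul, mul_one, one_mul, h2]
    calc (x.1.1 * y.1.1) * e + (x.2.1 * y.2.1) * (1 - e)
        = x.1.1 * (y.1.1 * e) + x.2.1 * (y.2.1 * (1 - e)) := by
          rw [Matrix.mul_assoc, Matrix.mul_assoc]
      _ = x.1.1 * (e * (y.1.1 * e)) + x.1.1 * (e * (y.2.1 * (1 - e))) +
          (x.2.1 * ((1 - e) * (y.1.1 * e)) + x.2.1 * ((1 - e) * (y.2.1 * (1 - e)))) := by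
          have a1 : e * (y.1.1 * e) = y.1.1 * e := by
            rw [h1, ← Matrix.mul_assoc, hid]
          have a2 : e * (y.2.1 * (1 - e)) = 0 := by
            rw [h6, ← Matrix.mul_assoc, h3, Matrix.zero_mul]
          have a3 : (1 - e) * (y.1.1 * e) = 0 := by
            rw [h1, ← Matrix.mul_assoc, h4, Matrix.zero_mul]
          have a4 : (1 - e) * (y.2.1 * (1 - e)) = y.2.1 * (1 - e) := by
            rw [h6, ← Matrix.mul_assoc, h5]
          rw [a1, a2, a3, a4, Matrix.mul_zero, Matrix.mul_zero, add_zero, zero_add]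
      _ = _ := by
          simp only [Matrix.mul_add, Matrix.add_mul, Matrix.mul_assoc]
          abel
  map_zero' := by
    change (0 : Matrix (Fin n) (Fin n) ℚ) * e + 0 * (1 - e) = 0
    rw [Matrix.zero_mul, Matrix.zero_mul, add_zero]
  map_add' x y := by
    change (x.1.1 + y.1.1) * e + (x.2.1 + y.2.1) * (1 - e) = _
    rw [Matrix.add_mul, Matrix.add_mul]
    abel
  commutes' q := by
    change (algebraMap ℚ (Matrix (Fin n) (Fin n) ℚ) q) * e +
      (algebraMap ℚ (Matrix (Fin n) (Fin n) ℚ) q) * (1 - e) = algebraMap ℚ _ q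
    rw [← Matrix.mul_add, add_sub_cancel, Matrix.mul_one]

theorem pairHom_apply {n : ℕ} (E : Subalgebra ℚ (Matrix (Fin n) (Fin n) ℚ))
    (e : Matrix (Fin n) (Fin n) ℚ) (he : ∀ c ∈ cent E, c * e = e * c) (hid : e * e = e)
    (x : cent E × cent E) : pairHom E e he hid x = x.1.1 * e + x.2.1 * (1 - e) := rfl

end Pool.Agent.Q55.ZT
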