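import Pool.Agent.Q55.ZT.Fac

/-! # Direct factors with a given rational idempotent -/

set_option autoImplicit false

namespace Pool.Agent.Q55.ZT

open Matrix Pool.Agent.Q55.SF

/-- a rational matrix maps a lattice to a lattice up to a multiple -/
theorem exists_mult {n : ℕ} {L : AddSubgroup (Fin n → ℚ)} (h1 : L.FG) (h2 : Full L)
    (c : Matrix (Fin n) (Fin n) ℚ) : ∃ m : ℕ, 0 < m ∧ ∀ v ∈ L, m • (c *ᵥ v) ∈ L := by
  let f : (Fin n → ℚ) →+ (Fin n → ℚ) :=
    { toFun := fun v => c *ᵥ v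
      map_zero' := mulVec_zero c
      map_add' := mulVec_add c }
  obtain ⟨m, hm, h3⟩ := exists_mul (fg_map L h1 f) h2
  exact ⟨m, hm, fun v hv => h3 _ ⟨v, hv, rfl⟩⟩

/-- the lattice `a⁻¹ L` -/
def pre {n : ℕ} (a : Matrix (Fin n) (Fin n) ℚ) (L : AddSubgroup (Fin n → ℚ)) :
    AddSubgroup (Fin n → ℚ) where
  carrier := {v | a *ᵥ v ∈ L}
  zero_mem' := by
    change a *ᵥ 0 ∈ L
    rw [mulVec_zero]
    exact L.zero_mem
  add_mem' {v w} hv hw := by
    change a *ᵥ (v + w) ∈ L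
    rw [mulVec_add]
    exact L.add_mem hv hw
  neg_mem' {v} hv := by
    change a *ᵥ (-v) ∈ L
    rw [mulVec_neg]
    exact L.neg_mem hv

theorem mem_pre {n : ℕ} (a : Matrix (Fin n) (Fin n) ℚ) (L : AddSubgroup (Fin n → ℚ))
    (v : Fin n → ℚ) : v ∈ pre a L ↔ a *ᵥ v ∈ L := Iff.rfl

theorem pre_fg {n : ℕ} {a a' : Matrix (Fin n) (Fin n) ℚ} (h : a * a' = 1) (h' : a' * a = 1)
    {L : AddSubgroup (Fin n → ℚ)} (hL : L.FG) : (pre a L).FG := by
  let f : (Fin n → ℚ) →+ (Fin n → ℚ) :=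
    { toFun := fun v => a' *ᵥ v
      map_zero' := mulVec_zero a'
      map_add' := mulVec_add a' }
  have e : pre a L = L.map f := by
    ext v
    constructor
    · intro hv
      refine ⟨a *ᵥ v, hv, ?_⟩
      change a' *ᵥ (a *ᵥ v) = v
      rw [mulVec_mulVec, h', one_mulVec]
    · rintro ⟨w, hw, rfl⟩
      change a *ᵥ (a' *ᵥ w) ∈ L
      rw [mulVec_mulVec, h, one_mulVec]
      exact hw
  rw [e]
  exact fg_map L hL f

theorem pre_full {n : ℕ} (a : Matrix (Fin n) (Fin n) ℚ) {L : AddSubgroup (Fin n → ℚ)}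
    (hL : Full L) : Full (pre a L) := by
  intro v
  obtain ⟨m, hm, h⟩ := hL (a *ᵥ v)
  refine ⟨m, hm, ?_⟩
  rw [mem_pre, mulVec_smul]
  exact h

/-- the lattices `a⁻¹ L` for the `a` for which the idempotent `a e a⁻¹` preserves `L` -/
theorem exists_near_conj {n : ℕ} (E : Subalgebra ℚ (Matrix (Fin n) (Fin n) ℚ))
    [IsSemisimpleRing E] {L : AddSubgroup (Fin n → ℚ)} (hL1 : L.FG) (hL2 : Full L)
    (e : Matrix (Fin n) (Fin n) ℚ) (heE : e ∈ E) (hid : e * e = e) :
    ∃ M : ℕ, 0 < M ∧ ∀ a ∈ E, ∀ a' ∈ E, a * a' = 1 → a' * a = 1 →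
      (∀ v ∈ L, (a * e * a') *ᵥ v ∈ L) → ∃ b ∈ E, ∃ b' ∈ E, b * b' = 1 ∧ b' * b = 1 ∧
        b * e * b' = a * e * a' ∧ Near M (stdl n) (pre b L) := by
  classical
  have hc : ∀ c ∈ cent E, ∀ x ∈ E, c * x = x * c := fun c hc x hx =>
    ((Subalgebra.mem_centralizer_iff ℚ).mp hc x hx).symm
  have he : ∀ c ∈ cent E, c * e = e * c := fun c h => hc c h e heE
  have hcs : IsSemisimpleRing (cent E) := cent_semisimple E
  set φ := pairHom E e he hid with hφ
  have hB : IsSemisimpleRing φ.range :=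
    RingHom.isSemisimpleRing_of_surjective φ.rangeRestrict.toRingHom φ.rangeRestrict_surjective
  have hE1 : IsSemisimpleRing (cent φ.range) := cent_semisimple φ.range
  choose m₁ hm₁ hm₂ using fun c => exists_mult hL1 hL2 c
  -- the multiple for an element of the big commutant
  have hdec : ∀ c : Matrix (Fin n) (Fin n) ℚ, ∃ x : cent E × cent E,
      (∀ y ∈ cent φ.range, c * y = y * c) → φ x = c := by
    intro c
    by_cases h : ∀ y ∈ cent φ.range, c * y = y * c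
    · have h1 : c ∈ φ.range := double_centralizer_matrix φ.range c fun d hd =>
        (h d ((Subalgebra.mem_centralizer_iff ℚ).mpr fun y hy => (hd y hy).symm)).symm
      obtain ⟨x, hx⟩ := h1
      exact ⟨x, fun _ => hx⟩
    · exact ⟨0, fun h' => (h h').elim⟩
  choose x hx using hdec
  obtain ⟨M, hM, h1⟩ := jz_matrix (cent φ.range)
    (fun c => m₁ (x c).1.1 * m₁ (x c).2.1) (fun c => Nat.mul_pos (hm₁ _) (hm₁ _))
  refine ⟨M, hM, fun a ha a' ha' e1 e2 hst => ?_⟩
  have hmem : ∀ c ∈ cent E, ∀ v ∈ pre a L, m₁ c • (c *ᵥ v) ∈ pre a L := by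
    intro c hcE v hv
    rw [mem_pre, mulVec_smul, mulVec_mulVec, ← hc c hcE a ha, ← mulVec_mulVec]
    exact hm₂ c _ hv
  have hev : ∀ v ∈ pre a L, e *ᵥ v ∈ pre a L := by
    intro v hv
    have h2 := hst _ hv
    rw [mulVec_mulVec, Matrix.mul_assoc, e2, Matrix.mul_one, ← mulVec_mulVec] at h2
    exact h2
  obtain ⟨g, hg, g', hg', h2, h3, h4, h5⟩ := h1 (pre a L) (pre_fg e1 e2 hL1) (pre_full a hL2) (by
    intro c hcc v hv
    have h6 : φ (x c) = c := hx c hcc
    have h7 : c *ᵥ v = (x c).1.1 *ᵥ (e *ᵥ v) + (x c).2.1 *ᵥ ((1 - e) *ᵥ v) := by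
      conv_lhs => rw [← h6]
      rw [hφ, pairHom_apply, add_mulVec, mulVec_mulVec, mulVec_mulVec]
    rw [h7, nsmul_add]
    refine (pre a L).add_mem ?_ ?_
    · rw [mul_comm, mul_smul]
      exact (pre a L).nsmul_mem (hmem _ (x c).1.2 _ (hev v hv)) _
    · rw [mul_smul]
      refine (pre a L).nsmul_mem (hmem _ (x c).2.2 _ ?_) _
      rw [sub_mulVec, one_mulVec]
      exact (pre a L).sub_mem hv (hev v hv))
  -- elements of the centralizer of the big commutant
  have hin : ∀ y ∈ cent φ.range, y ∈ E ∧ y * e = e * y := by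
    intro y hy
    have h6 : ∀ z ∈ φ.range, z * y = y * z := fun z hz =>
      (Subalgebra.mem_centralizer_iff ℚ).mp hy z hz
    constructor
    · refine double_centralizer_matrix E y fun c hcc => ?_
      have hcE : c ∈ cent E := (Subalgebra.mem_centralizer_iff ℚ).mpr fun z hz => (hcc z hz).symm
      have h7 : c ∈ φ.range := ⟨(⟨c, hcE⟩, ⟨c, hcE⟩), by
        change c * e + c * (1 - e) = c
        rw [← Matrix.mul_add, add_sub_cancel, Matrix.mul_one]⟩
      exact h6 c h7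
    · have h7 : e ∈ φ.range := ⟨(1, 0), by
        change (1 : Matrix (Fin n) (Fin n) ℚ) * e + 0 * (1 - e) = e
        rw [Matrix.one_mul, Matrix.zero_mul, add_zero]⟩
      exact (h6 e h7).symm
  obtain ⟨hgE, hge⟩ := hin g hg
  obtain ⟨hgE', hge'⟩ := hin g' hg'
  refine ⟨a * g, E.mul_mem ha hgE, g' * a', E.mul_mem hgE' ha', ?_, ?_, ?_, ?_, ?_⟩
  · rw [Matrix.mul_assoc, ← Matrix.mul_assoc g, h2, Matrix.one_mul, e1]
  · rw [Matrix.mul_assoc, ← Matrix.mul_assoc a', e2, Matrix.one_mul, h3]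
  · calc a * g * e * (g' * a') = a * (g * e) * (g' * a') := by rw [Matrix.mul_assoc a g e]
      _ = a * e * (g * g') * a' := by rw [hge]; simp only [Matrix.mul_assoc]
      _ = a * e * a' := by rw [h2, Matrix.mul_one]
  · intro w hw
    rw [mem_pre, ← mulVec_mulVec, mulVec_smul]
    exact h4 w hw
  · intro v hv
    refine h5 v ?_
    rw [mem_pre, mulVec_mulVec]
    exact hv

end Pool.Agent.Q55.ZT
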