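import Mathlib

/-! # The four squares matrix and Zarhin's lattice, linear algebra -/

set_option autoImplicit false

namespace Pool.Agent.Q55.ZT

open Matrix

/-- the matrix of a quaternion -/
def quat (a b c d : ℤ) : Matrix (Fin 4) (Fin 4) ℤ :=
  !![a, -b, -c, -d; b, a, -d, c; c, d, a, -b; d, -c, b, a]

theorem quat_left (a b c d : ℤ) (i j : Fin 4) : ∑ k, quat a b c d k i * quat a b c d k j =
    if i = j then a ^ 2 + b ^ 2 + c ^ 2 + d ^ 2 else 0 := by
  fin_cases i <;> fin_cases j <;> simp [quat, Fin.sum_univ_four] <;> ring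

theorem quat_right (a b c d : ℤ) (i j : Fin 4) : ∑ k, quat a b c d i k * quat a b c d j k =
    if i = j then a ^ 2 + b ^ 2 + c ^ 2 + d ^ 2 else 0 := by
  fin_cases i <;> fin_cases j <;> simp [quat, Fin.sum_univ_four] <;> ring

variable {V : Type} [AddCommGroup V]

theorem double_sum (A B : Fin 4 → Fin 4 → ℤ) (s : ℤ)
    (h : ∀ i j, ∑ k, A i k * B k j = if i = j then s else 0) (z : Fin 4 → V) (a : Fin 4) :
    ∑ b, A a b • ∑ c, B b c • z c = s • z a := by
  have h1 : ∀ b, A a b • ∑ c, B b c • z c = ∑ c, (A a b * B b c) • z c := fun b => by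
    rw [Finset.smul_sum]
    exact Finset.sum_congr rfl fun c _ => by rw [mul_smul]
  rw [Finset.sum_congr rfl fun b _ => h1 b, Finset.sum_comm]
  have h2 : ∀ c, ∑ b, (A a b * B b c) • z c = (if a = c then s else 0) • z c := fun c => by
    rw [← Finset.sum_smul, h]
  rw [Finset.sum_congr rfl fun c _ => h2 c, Finset.sum_eq_single a]
  · rw [if_pos rfl]
  · intro b _ hb
    rw [if_neg (Ne.symm hb), zero_smul]
  · intro h
    exact absurd (Finset.mem_univ a) h

theorem four_iff (L M : AddSubgroup V) (hLM : L ≤ M) (s : ℤ) (hm : ∀ v ∈ M, (s + 1) • v ∈ L)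
    (I : Matrix (Fin 4) (Fin 4) ℤ) (h1 : ∀ i j, ∑ k, I k i * I k j = if i = j then s else 0)
    (h2 : ∀ i j, ∑ k, I i k * I j k = if i = j then s else 0) (z w : Fin 4 → V) :
    ((∀ a, z a ∈ M) ∧ ∀ a, w a - ∑ b, I a b • z b ∈ L) ↔
      (∀ a, z a + ∑ b, I b a • w b ∈ L) ∧ ∀ a, w a ∈ M := by
  constructor
  · rintro ⟨hz, hx⟩
    have hw : ∀ a, w a ∈ M := fun a => by
      have h3 := M.add_mem (hLM (hx a)) (AddSubgroup.sum_mem M fun b (_ : b ∈ Finset.univ) =>
        AddSubgroup.zsmul_mem M (hz b) (I a b))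
      rwa [sub_add_cancel] at h3
    refine ⟨fun a => ?_, hw⟩
    have e : z a + ∑ b, I b a • w b = (s + 1) • z a + ∑ b, I b a • (w b - ∑ c, I b c • z c) := by
      have e1 : ∑ b, I b a • (w b - ∑ c, I b c • z c) = ∑ b, I b a • w b - s • z a := by
        rw [← double_sum (fun i k => I k i) (fun k j => I k j) s h1 z a, ← Finset.sum_sub_distrib]
        exact Finset.sum_congr rfl fun b _ => smul_sub _ _ _
      rw [e1, add_smul, one_smul]
      abel
    rw [e]
    exact L.add_mem (hm _ (hz a)) (AddSubgroup.sum_mem L fun b _ =>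
      AddSubgroup.zsmul_mem L (hx b) _)
  · rintro ⟨hq, hw⟩
    have hz : ∀ a, z a ∈ M := fun a => by
      have h3 := M.sub_mem (hLM (hq a)) (AddSubgroup.sum_mem M fun b (_ : b ∈ Finset.univ) =>
        AddSubgroup.zsmul_mem M (hw b) (I b a))
      rwa [add_sub_cancel_right] at h3
    refine ⟨hz, fun a => ?_⟩
    have e : w a - ∑ b, I a b • z b = (s + 1) • w a - ∑ b, I a b • (z b + ∑ c, I c b • w c) := by
      have e1 : ∑ b, I a b • (z b + ∑ c, I c b • w c) = ∑ b, I a b • z b + s • w a := by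
        rw [← double_sum (fun i k => I i k) (fun k j => I j k) s h2 w a,
          ← Finset.sum_add_distrib]
        exact Finset.sum_congr rfl fun b _ => smul_add _ _ _
      rw [e1, add_smul, one_smul]
      abel
    rw [e]
    exact L.sub_mem (hm _ (hw a)) (AddSubgroup.sum_mem L fun b _ =>
      AddSubgroup.zsmul_mem L (hq b) _)

end Pool.Agent.Q55.ZT
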