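import Pool.Agent.Q55.ZT.Defs

/-! # Dual lattices -/

set_option autoImplicit false

namespace Pool.Agent.Q55.ZT

open Matrix Module Pool.Agent.Q55.SF

variable {n : ℕ} {ℓ : ℕ} [Fact ℓ.Prime]

/-- a basis of a local lattice -/
theorem local_basis (L : Submodule ℤ_[ℓ] (Fin n → ℚ_[ℓ])) (hL : L.FG)
    (hs : ∀ v : Fin n → ℚ_[ℓ], ∃ k : ℕ, (ℓ : ℚ_[ℓ]) ^ k • v ∈ L) :
    ∃ c c' : Matrix (Fin n) (Fin n) ℚ_[ℓ], c * c' = 1 ∧ c' * c = 1 ∧
      ∀ v, v ∈ L ↔ ∀ i, ‖(c *ᵥ v) i‖ ≤ 1 := by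
  classical
  have hfin : Module.Finite ℤ_[ℓ] L := Module.Finite.iff_fg.mpr hL
  let b := Module.Free.chooseBasis ℤ_[ℓ] L
  have hli : LinearIndependent ℤ_[ℓ] (fun j => (b j : Fin n → ℚ_[ℓ])) := by
    have h1 := b.linearIndependent
    exact h1.map' L.subtype (Submodule.ker_subtype L)
  have hli' : LinearIndependent ℚ_[ℓ] (fun j => (b j : Fin n → ℚ_[ℓ])) :=
    (LinearIndependent.iff_fractionRing ℤ_[ℓ] ℚ_[ℓ]).mp hli
  have hspan : ⊤ ≤ Submodule.span ℚ_[ℓ] (Set.range fun j => (b j : Fin n → ℚ_[ℓ])) := by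
    intro v _
    obtain ⟨k, hk⟩ := hs v
    have h2 : (ℓ : ℚ_[ℓ]) ^ k • v ∈ Submodule.span ℚ_[ℓ]
        (Set.range fun j => (b j : Fin n → ℚ_[ℓ])) := by
      have h3 := congrArg (Subtype.val) (b.sum_repr ⟨_, hk⟩)
      rw [AddSubmonoidClass.coe_finsetSum] at h3
      change _ = (ℓ : ℚ_[ℓ]) ^ k • v at h3
      rw [← h3]
      refine Submodule.sum_mem _ fun j _ => ?_
      rw [SetLike.val_smul]
      have h4 : (b.repr ⟨_, hk⟩ j) • (b j : Fin n → ℚ_[ℓ]) =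
          (algebraMap ℤ_[ℓ] ℚ_[ℓ] (b.repr ⟨_, hk⟩ j)) • (b j : Fin n → ℚ_[ℓ]) :=
        (algebraMap_smul ℚ_[ℓ] _ _).symm
      rw [h4]
      exact Submodule.smul_mem _ _ (Submodule.subset_span ⟨j, rfl⟩)
    have h5 := Submodule.smul_mem _ (((ℓ : ℚ_[ℓ]) ^ k)⁻¹) h2
    rwa [smul_smul, inv_mul_cancel₀ (pow_ne_zero _ p_ne), one_smul] at h5
  let B := Basis.mk hli' hspan
  have hcard : Fintype.card (Module.Free.ChooseBasisIndex ℤ_[ℓ] L) = n := by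
    have h1 := Module.finrank_eq_card_basis B
    rw [Module.finrank_fintype_fun_eq_card, Fintype.card_fin] at h1
    exact h1.symm
  let σ : Module.Free.ChooseBasisIndex ℤ_[ℓ] L ≃ Fin n := Fintype.equivFinOfCardEq hcard
  let B' := B.reindex σ
  have hB' : ∀ i, B' i = (b (σ.symm i) : Fin n → ℚ_[ℓ]) := fun i => by
    rw [Basis.reindex_apply, Basis.mk_apply]
  let c : Matrix (Fin n) (Fin n) ℚ_[ℓ] := LinearMap.toMatrix' B'.equivFun.toLinearMap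
  let c' : Matrix (Fin n) (Fin n) ℚ_[ℓ] := LinearMap.toMatrix' B'.equivFun.symm.toLinearMap
  have hc : ∀ v, c *ᵥ v = B'.equivFun v := fun v => LinearMap.toMatrix'_mulVec _ v
  refine ⟨c, c', ?_, ?_, fun v => ?_⟩
  · rw [← LinearMap.toMatrix'_comp, LinearEquiv.comp_coe, LinearEquiv.symm_trans_self]
    exact LinearMap.toMatrix'_id
  · rw [← LinearMap.toMatrix'_comp, LinearEquiv.comp_coe, LinearEquiv.self_trans_symm]
    exact LinearMap.toMatrix'_id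
  · rw [hc]
    constructor
    · intro hv i
      have h1 : v = ∑ j, (algebraMap ℤ_[ℓ] ℚ_[ℓ] (b.repr ⟨v, hv⟩ (σ.symm j))) • B' j := by
        have h3 := congrArg (Subtype.val) (b.sum_repr ⟨v, hv⟩)
        rw [AddSubmonoidClass.coe_finsetSum] at h3
        change _ = v at h3
        rw [← Equiv.sum_comp σ.symm] at h3
        conv_lhs => rw [← h3]
        refine Finset.sum_congr rfl fun j _ => ?_
        rw [hB', SetLike.val_smul, algebraMap_smul]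
      have h2 : B'.equivFun v = fun j => algebraMap ℤ_[ℓ] ℚ_[ℓ] (b.repr ⟨v, hv⟩ (σ.symm j)) := by
        apply B'.equivFun.symm.injective
        rw [LinearEquiv.symm_apply_apply, Basis.equivFun_symm_apply]
        exact h1
      rw [h2]
      exact PadicInt.norm_le_one _
    · intro h
      rw [← B'.sum_equivFun v]
      refine Submodule.sum_mem _ fun j _ => ?_
      let x : ℤ_[ℓ] := ⟨B'.equivFun v j, h j⟩
      have h1 : (B'.equivFun v j) • B' j = x • B' j := rfl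
      rw [h1, hB']
      exact L.smul_mem _ (b (σ.symm j)).2

/-- the lattice with the coordinates `c` is finitely generated and spans -/
theorem fg_of_basis (L : Submodule ℤ_[ℓ] (Fin n → ℚ_[ℓ])) (c c' : Matrix (Fin n) (Fin n) ℚ_[ℓ])
    (h1 : c * c' = 1) (h2 : c' * c = 1) (h : ∀ v, v ∈ L ↔ ∀ i, ‖(c *ᵥ v) i‖ ≤ 1) :
    L.FG ∧ ∀ v : Fin n → ℚ_[ℓ], ∃ k : ℕ, (ℓ : ℚ_[ℓ]) ^ k • v ∈ L := by
  constructor
  · have e : L = (LinearMap.range (emb n ℓ)).map (c'.mulVecLin.restrictScalars ℤ_[ℓ]) := by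
      ext v
      rw [h]
      constructor
      · intro hv
        obtain ⟨w, hw⟩ := (mem_std _).mpr hv
        refine ⟨c *ᵥ v, ⟨w, hw⟩, ?_⟩
        change c' *ᵥ (c *ᵥ v) = v
        rw [mulVec_mulVec, h2, one_mulVec]
      · rintro ⟨_, ⟨w, rfl⟩, rfl⟩ i
        change ‖(c *ᵥ (c' *ᵥ emb n ℓ w)) i‖ ≤ 1
        rw [mulVec_mulVec, h1, one_mulVec]
        exact (w i).2
    rw [e, LinearMap.range_eq_map]
    exact (Module.Finite.fg_top.map _).map _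
  · intro v
    obtain ⟨k, w, hw⟩ := exists_pow_emb (c *ᵥ v)
    refine ⟨k, (h _).mpr fun i => ?_⟩
    rw [mulVec_smul, ← hw]
    exact (w i).2

theorem norm_smul_int (r : ℤ_[ℓ]) (x : ℚ_[ℓ]) (h : ‖x‖ ≤ 1) : ‖r • x‖ ≤ 1 := by
  change ‖(r : ℚ_[ℓ]) * x‖ ≤ 1
  rw [norm_mul]
  exact mul_le_one₀ r.2 (norm_nonneg _) h

/-- the dual of a local lattice with respect to the form `J` -/
def dual (J : Matrix (Fin n) (Fin n) ℚ_[ℓ]) (L : Submodule ℤ_[ℓ] (Fin n → ℚ_[ℓ])) :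
    Submodule ℤ_[ℓ] (Fin n → ℚ_[ℓ]) where
  carrier := {v | ∀ u ∈ L, ‖u ⬝ᵥ J *ᵥ v‖ ≤ 1}
  zero_mem' u _ := by
    rw [mulVec_zero, dotProduct_zero, norm_zero]
    exact zero_le_one
  add_mem' {a b} ha hb u hu := by
    rw [mulVec_add, dotProduct_add]
    exact (Padic.nonarchimedean _ _).trans (max_le (ha u hu) (hb u hu))
  smul_mem' r a ha u hu := by
    have e : u ⬝ᵥ J *ᵥ (r • a) = r • (u ⬝ᵥ J *ᵥ a) := by
      have e1 : r • a = (r : ℚ_[ℓ]) • a := rfl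
      rw [e1, mulVec_smul, dotProduct_smul]
      rfl
    rw [e]
    exact norm_smul_int r _ (ha u hu)

theorem mem_dual {J : Matrix (Fin n) (Fin n) ℚ_[ℓ]} {L : Submodule ℤ_[ℓ] (Fin n → ℚ_[ℓ])}
    {v : Fin n → ℚ_[ℓ]} : v ∈ dual J L ↔ ∀ u ∈ L, ‖u ⬝ᵥ J *ᵥ v‖ ≤ 1 := Iff.rfl

theorem norm_sum_le {ι : Type} (s : Finset ι) (f : ι → ℚ_[ℓ]) (h : ∀ i ∈ s, ‖f i‖ ≤ 1) :
    ‖∑ i ∈ s, f i‖ ≤ 1 := by
  classical
  induction s using Finset.induction_on with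
  | empty =>
    rw [Finset.sum_empty, norm_zero]
    exact zero_le_one
  | insert a s ha ih =>
    rw [Finset.sum_insert ha]
    exact (Padic.nonarchimedean _ _).trans (max_le (h a (Finset.mem_insert_self _ _))
      (ih fun i hi => h i (Finset.mem_insert_of_mem hi)))

theorem norm_dot_le (u v : Fin n → ℚ_[ℓ]) (hu : ∀ i, ‖u i‖ ≤ 1) (hv : ∀ i, ‖v i‖ ≤ 1) :
    ‖u ⬝ᵥ v‖ ≤ 1 := by
  unfold dotProduct
  refine norm_sum_le _ _ fun i _ => ?_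
  rw [norm_mul]
  exact mul_le_one₀ (hu i) (norm_nonneg _) (hv i)

theorem dual_iff (J : Matrix (Fin n) (Fin n) ℚ_[ℓ]) (L : Submodule ℤ_[ℓ] (Fin n → ℚ_[ℓ]))
    (c c' : Matrix (Fin n) (Fin n) ℚ_[ℓ]) (h1 : c * c' = 1) (h2 : c' * c = 1)
    (h : ∀ v, v ∈ L ↔ ∀ i, ‖(c *ᵥ v) i‖ ≤ 1) (v : Fin n → ℚ_[ℓ]) :
    v ∈ dual J L ↔ ∀ i, ‖((c'.transpose * J) *ᵥ v) i‖ ≤ 1 := by
  have key : ∀ u, u ⬝ᵥ J *ᵥ v = (c *ᵥ u) ⬝ᵥ (c'.transpose * J) *ᵥ v := by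
    intro u
    rw [← mulVec_mulVec, Matrix.dotProduct_mulVec (c *ᵥ u) c'.transpose, Matrix.vecMul_transpose,
      mulVec_mulVec, h2, one_mulVec]
  rw [mem_dual]
  constructor
  · intro hv i
    have h3 : c' *ᵥ Pi.single i 1 ∈ L := by
      rw [h]
      intro j
      rw [mulVec_mulVec, h1, one_mulVec]
      by_cases hij : j = i
      · rw [hij, Pi.single_eq_same, norm_one]
      · rw [Pi.single_eq_of_ne hij, norm_zero]
        exact zero_le_one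
    have h4 := hv _ h3
    rwa [key, mulVec_mulVec, h1, one_mulVec, single_dotProduct, one_mul] at h4
  · intro hv u hu
    rw [key]
    exact norm_dot_le _ _ ((h u).mp hu) hv

theorem dual_fg (J K : Matrix (Fin n) (Fin n) ℚ_[ℓ]) (hK : K * J = 1) (hJ : J * K = 1)
    (L : Submodule ℤ_[ℓ] (Fin n → ℚ_[ℓ])) (hL : L.FG)
    (hs : ∀ v : Fin n → ℚ_[ℓ], ∃ k : ℕ, (ℓ : ℚ_[ℓ]) ^ k • v ∈ L) :
    (dual J L).FG ∧ ∀ v : Fin n → ℚ_[ℓ], ∃ k : ℕ, (ℓ : ℚ_[ℓ]) ^ k • v ∈ dual J L := by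
  obtain ⟨c, c', h1, h2, h3⟩ := local_basis L hL hs
  refine fg_of_basis _ (c'.transpose * J) (K * c.transpose) ?_ ?_ (dual_iff J L c c' h1 h2 h3)
  · rw [Matrix.mul_assoc, ← Matrix.mul_assoc J, hJ, Matrix.one_mul, ← transpose_mul, h1,
      transpose_one]
  · rw [Matrix.mul_assoc, ← Matrix.mul_assoc c.transpose, ← transpose_mul, h2, transpose_one,
      Matrix.one_mul, hK]

/-- biduality -/
theorem mem_of_dual (J K : Matrix (Fin n) (Fin n) ℚ_[ℓ]) (hJ : J * K = 1)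
    (L : Submodule ℤ_[ℓ] (Fin n → ℚ_[ℓ])) (hL : L.FG)
    (hs : ∀ v : Fin n → ℚ_[ℓ], ∃ k : ℕ, (ℓ : ℚ_[ℓ]) ^ k • v ∈ L) (y : Fin n → ℚ_[ℓ])
    (hy : ∀ z ∈ dual J L, ‖y ⬝ᵥ J *ᵥ z‖ ≤ 1) : y ∈ L := by
  obtain ⟨c, c', h1, h2, h3⟩ := local_basis L hL hs
  rw [h3]
  intro i
  have h4 : K *ᵥ (c.transpose *ᵥ Pi.single i 1) ∈ dual J L := by
    rw [dual_iff J L c c' h1 h2 h3]
    intro j
    rw [mulVec_mulVec, mulVec_mulVec, Matrix.mul_assoc c'.transpose, hJ,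
      Matrix.mul_one, ← transpose_mul, h1, transpose_one, one_mulVec]
    by_cases hij : j = i
    · rw [hij, Pi.single_eq_same, norm_one]
    · rw [Pi.single_eq_of_ne hij, norm_zero]
      exact zero_le_one
  have h5 := hy _ h4
  rw [mulVec_mulVec, hJ, one_mulVec, Matrix.dotProduct_mulVec, Matrix.vecMul_transpose,
    dotProduct_single, mul_one] at h5
  exact h5

end Pool.Agent.Q55.ZT
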