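import Pool.Agent.Q55.ZT.NearDefs
import Pool.Agent.Q55.ZT.Main

/-! # Direct factors up to an integer -/

set_option autoImplicit false

namespace Pool.Agent.Q55.ZT

open Matrix Module Pool.Agent.Q55.SF

variable {G : Type} [Group G] {D : Motives G}

/-- `A` is, up to an isomorphism `f` of the rational motives, between `B` and `d B` -/
def IsBetween (D : Motives G) (d : ℕ) (B A : D.ZMotive) : Prop :=
  ∃ f ∈ D.Hom B.X A.X, ∃ g ∈ D.Hom A.X B.X, g * f = 1 ∧ f * g = 1 ∧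
    (∀ (ℓ : ℕ) [Fact ℓ.Prime], ∀ v ∈ A.L ℓ, g.map (algebraMap ℚ ℚ_[ℓ]) *ᵥ v ∈ B.L ℓ) ∧
    ∀ (ℓ : ℕ) [Fact ℓ.Prime], ∀ v ∈ B.L ℓ,
      (d : ℚ_[ℓ]) • (f.map (algebraMap ℚ ℚ_[ℓ]) *ᵥ v) ∈ A.L ℓ

theorem finite_between (B : D.ZMotive) (d : ℕ) (hd : 0 < d) (Q : D.ZMotive → Prop) :
    ∃ (m : ℕ) (C : Fin m → {A : D.ZMotive // Q A}), ∀ A : {A : D.ZMotive // Q A},
      IsBetween D d B A.1 → ∃ k, D.Iso (C k).1 A.1 := by
  obtain ⟨M₀, hM₀, hn⟩ := rat_near B.isLattice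
  set M := d * M₀ with hMdef
  have hM : 0 < M := Nat.mul_pos hd hM₀
  have hne : NeZero (M ^ 2) := ⟨pow_ne_zero _ hM.ne'⟩
  refine exists_family (T := Set (Fin (D.rank B.X) → ZMod (M ^ 2)))
    (fun A : {A : D.ZMotive // Q A} => IsBetween D d B A.1)
    (fun A s => ∃ f ∈ D.Hom B.X A.1.X, ∃ g ∈ D.Hom A.1.X B.X, g * f = 1 ∧ f * g = 1 ∧
      Near M (stdl (D.rank B.X)) (rat B.X fun ℓ _ => push g A.1.L ℓ) ∧
        code M (rat B.X fun ℓ _ => push g A.1.L ℓ) = s)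
    (fun A A' => D.Iso A.1 A'.1) ?_ ?_
  · intro ⟨A, hQA⟩ hA
    obtain ⟨f, hf, g, hg, h4, h5, h6, h7⟩ := hA
    refine ⟨_, f, hf, g, hg, h4, h5, ⟨fun v hv => ?_, fun v hv => ?_⟩, rfl⟩
    · have h8 := hn.1 v hv
      intro ℓ _
      rw [mem_push h4 h5, hMdef, mul_smul, toQl_nsmul, mulVec_smul]
      exact h7 ℓ _ (h8 ℓ)
    · have h8 : v ∈ rat B.X B.L := by
        intro ℓ _
        have h9 := hv ℓ
        rw [mem_push h4 h5] at h9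
        have h10 := h6 ℓ _ h9
        rwa [mulVec_mulVec, ← Matrix.map_mul, h4, Matrix.map_one _ (map_zero _) (map_one _),
          one_mulVec] at h10
      have h11 := hn.2 v h8
      rw [hMdef, mul_smul]
      exact (stdl _).nsmul_mem h11 d
  · intro ⟨A, hQA⟩ ⟨A', hQA'⟩ s hA hA'
    obtain ⟨f, hf, g, hg, h1, h2, h3, h4⟩ := hA
    obtain ⟨f', hf', g', hg', h1', h2', h3', h4'⟩ := hA'
    have hc := h4.trans h4'.symm
    have hl := isLattice_push hf h1 h2 A.isLattice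
    have hl' := isLattice_push hf' h1' h2' A'.isLattice
    have hle : ∀ (ℓ : ℕ) [Fact ℓ.Prime] v, v ∈ push g A.L ℓ → v ∈ push g' A'.L ℓ :=
      fun ℓ _ v hv => rat_inj hl hl' (fun v hv => le_of_code hM h3 h3' hc v hv) ℓ v hv
    have hge : ∀ (ℓ : ℕ) [Fact ℓ.Prime] v, v ∈ push g' A'.L ℓ → v ∈ push g A.L ℓ :=
      fun ℓ _ v hv => rat_inj hl' hl (fun v hv => le_of_code hM h3' h3 hc.symm v hv) ℓ v hv
    refine ⟨f' * g, D.mul_mem _ _ _ _ _ hf' hg, f * g', D.mul_mem _ _ _ _ _ hf hg', ?_, ?_,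
      fun ℓ _ v => ?_⟩
    · rw [Matrix.mul_assoc, ← Matrix.mul_assoc g', h1', Matrix.one_mul, h2]
    · rw [Matrix.mul_assoc, ← Matrix.mul_assoc g, h1, Matrix.one_mul, h2']
    · have e1 : v ∈ A.L ℓ ↔ g.map (algebraMap ℚ ℚ_[ℓ]) *ᵥ v ∈ push g A.L ℓ := by
        rw [mem_push h1 h2, mulVec_mulVec, ← Matrix.map_mul, h2,
          Matrix.map_one _ (map_zero _) (map_one _), one_mulVec]
      have e2 : (f' * g).map (algebraMap ℚ ℚ_[ℓ]) *ᵥ v ∈ A'.L ℓ ↔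
          g.map (algebraMap ℚ ℚ_[ℓ]) *ᵥ v ∈ push g' A'.L ℓ := by
        rw [mem_push h1' h2', mulVec_mulVec, ← Matrix.map_mul]
      rw [e1, e2]
      exact ⟨hle ℓ _, hge ℓ _⟩

/-- the image of a lattice under a retraction -/
theorem isLattice_image {X Y : D.Obj} {i : Matrix (Fin (D.rank Y)) (Fin (D.rank X)) ℚ}
    {q : Matrix (Fin (D.rank X)) (Fin (D.rank Y)) ℚ} (hq : q ∈ D.Hom Y X) (h1 : q * i = 1)
    {L : ∀ (ℓ : ℕ) [Fact ℓ.Prime], Submodule ℤ_[ℓ] (Fin (D.rank Y) → ℚ_[ℓ])}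
    (hL : D.IsLattice Y L) : D.IsLattice X (fun ℓ _ => push q L ℓ) where
  fg ℓ _ := (hL.fg ℓ).map _
  span ℓ _ v := by
    obtain ⟨k, hk⟩ := hL.span ℓ (i.map (algebraMap ℚ ℚ_[ℓ]) *ᵥ v)
    refine ⟨k, _, hk, ?_⟩
    change q.map (algebraMap ℚ ℚ_[ℓ]) *ᵥ ((ℓ : ℚ_[ℓ]) ^ k • (i.map (algebraMap ℚ ℚ_[ℓ]) *ᵥ v)) = _
    rw [mulVec_smul, mulVec_mulVec, ← Matrix.map_mul, h1,
      Matrix.map_one _ (map_zero _) (map_one _), one_mulVec]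
  stable ℓ _ g v hv := by
    obtain ⟨w, hw, rfl⟩ := hv
    refine ⟨_, hL.stable ℓ g w hw, ?_⟩
    change q.map (algebraMap ℚ ℚ_[ℓ]) *ᵥ (D.act Y ℓ g *ᵥ w) =
      D.act X ℓ g *ᵥ (q.map (algebraMap ℚ ℚ_[ℓ]) *ᵥ w)
    rw [mulVec_mulVec, mulVec_mulVec]
    congr 1
    exact D.comm Y X _ hq ℓ g
  standard := by
    obtain ⟨N, hN⟩ := hL.standard
    obtain ⟨N1, h2⟩ := exists_bound (r := 1) fun _ => i
    obtain ⟨N2, h3⟩ := exists_bound (r := 1) fun _ => q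
    refine ⟨max N (max N1 N2), fun ℓ _ hℓ v => ?_⟩
    have hi' := h2 ℓ (lt_of_le_of_lt ((le_max_left _ _).trans (le_max_right _ _)) hℓ) 0
    have hq' := h3 ℓ (lt_of_le_of_lt ((le_max_right _ _).trans (le_max_right _ _)) hℓ) 0
    have hN' := hN ℓ (lt_of_le_of_lt (le_max_left _ _) hℓ)
    constructor
    · rintro ⟨w, hw, rfl⟩
      exact norm_mulVec (q.map (algebraMap ℚ ℚ_[ℓ])) hq' _ ((hN' w).mp hw)
    · intro hv
      refine ⟨i.map (algebraMap ℚ ℚ_[ℓ]) *ᵥ v, (hN' _).mpr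
        (norm_mulVec (i.map (algebraMap ℚ ℚ_[ℓ])) hi' _ hv), ?_⟩
      change q.map (algebraMap ℚ ℚ_[ℓ]) *ᵥ (i.map (algebraMap ℚ ℚ_[ℓ]) *ᵥ v) = v
      rw [mulVec_mulVec, ← Matrix.map_mul, h1, Matrix.map_one _ (map_zero _) (map_one _),
        one_mulVec]

end Pool.Agent.Q55.ZT
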