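import Pool.Agent.Q55.ZT.Near

/-! # The finiteness of the direct factors up to an integer -/

set_option autoImplicit false

namespace Pool.Agent.Q55.ZT

open Matrix Module Pool.Agent.Q55.SF

variable {G : Type} [Group G] {D : Motives G}

theorem map_smul_mat {m n : ℕ} (ℓ : ℕ) [Fact ℓ.Prime] (c : ℚ) (A : Matrix (Fin m) (Fin n) ℚ) :
    (c • A).map (algebraMap ℚ ℚ_[ℓ]) = algebraMap ℚ ℚ_[ℓ] c • A.map (algebraMap ℚ ℚ_[ℓ]) := by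
  ext i j
  simp only [Matrix.map_apply, Matrix.smul_apply, smul_eq_mul, map_mul]

theorem mem_push' {m n : ℕ} {g : Matrix (Fin m) (Fin n) ℚ}
    {L : ∀ (ℓ : ℕ) [Fact ℓ.Prime], Submodule ℤ_[ℓ] (Fin n → ℚ_[ℓ])} {ℓ : ℕ} [Fact ℓ.Prime]
    {v : Fin m → ℚ_[ℓ]} :
    v ∈ push g L ℓ ↔ ∃ w ∈ L ℓ, g.map (algebraMap ℚ ℚ_[ℓ]) *ᵥ w = v := Iff.rfl

theorem push_stable {X Y : D.Obj} {q : Matrix (Fin (D.rank X)) (Fin (D.rank Y)) ℚ}
    (hq : q ∈ D.Hom Y X) {L : ∀ (ℓ : ℕ) [Fact ℓ.Prime], Submodule ℤ_[ℓ] (Fin (D.rank Y) → ℚ_[ℓ])}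
    (hL : D.IsLattice Y L) (ℓ : ℕ) [Fact ℓ.Prime] (g : G) (v : Fin (D.rank X) → ℚ_[ℓ])
    (hv : v ∈ push q L ℓ) : D.act X ℓ g *ᵥ v ∈ push q L ℓ := by
  obtain ⟨w, hw, rfl⟩ := mem_push'.mp hv
  refine mem_push'.mpr ⟨_, hL.stable ℓ g w hw, ?_⟩
  rw [mulVec_mulVec, mulVec_mulVec]
  congr 1
  exact D.comm Y X _ hq ℓ g

/-- `d e L + d (1 - e) L` -/
noncomputable def split {n : ℕ} (d : ℕ) (e : Matrix (Fin n) (Fin n) ℚ)
    (L : ∀ (ℓ : ℕ) [Fact ℓ.Prime], Submodule ℤ_[ℓ] (Fin n → ℚ_[ℓ])) (ℓ : ℕ) [Fact ℓ.Prime] :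
    Submodule ℤ_[ℓ] (Fin n → ℚ_[ℓ]) :=
  push e L ℓ ⊔ push ((d : ℚ) • 1 - e) L ℓ

theorem isLattice_split {N : D.ZMotive} {d : ℕ} (hd : 0 < d)
    {e : Matrix (Fin (D.rank N.X)) (Fin (D.rank N.X)) ℚ} (he : e ∈ D.Hom N.X N.X)
    (heL : ∀ (ℓ : ℕ) [Fact ℓ.Prime], ∀ v ∈ N.L ℓ, e.map (algebraMap ℚ ℚ_[ℓ]) *ᵥ v ∈ N.L ℓ) :
    D.IsLattice N.X (fun ℓ _ => split d e N.L ℓ) ∧
      (∀ (ℓ : ℕ) [Fact ℓ.Prime], ∀ v ∈ split d e N.L ℓ, v ∈ N.L ℓ) ∧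
      ∀ (ℓ : ℕ) [Fact ℓ.Prime], ∀ v ∈ N.L ℓ, (d : ℚ_[ℓ]) • v ∈ split d e N.L ℓ := by
  have hd0 : (d : ℚ) ≠ 0 := Nat.cast_ne_zero.mpr hd.ne'
  have hone := D.one_mem N.X
  have hcomp : ∀ (ℓ : ℕ) [Fact ℓ.Prime] (v : Fin (D.rank N.X) → ℚ_[ℓ]),
      ((d : ℚ) • 1 - e).map (algebraMap ℚ ℚ_[ℓ]) *ᵥ v =
        (d : ℚ_[ℓ]) • v - e.map (algebraMap ℚ ℚ_[ℓ]) *ᵥ v := by
    intro ℓ _ v
    have h1 : ((d : ℚ) • (1 : Matrix (Fin (D.rank N.X)) (Fin (D.rank N.X)) ℚ) - e).map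
        (algebraMap ℚ ℚ_[ℓ]) = (d : ℚ_[ℓ]) • (1 : Matrix (Fin (D.rank N.X)) (Fin (D.rank N.X))
          ℚ_[ℓ]) - e.map (algebraMap ℚ ℚ_[ℓ]) := by
      rw [Matrix.map_sub _ (map_sub _), map_smul_mat, Matrix.map_one _ (map_zero _) (map_one _),
        map_natCast]
    rw [h1, Matrix.sub_mulVec, smul_mulVec, one_mulVec]
  have hle : ∀ (ℓ : ℕ) [Fact ℓ.Prime], ∀ v ∈ split d e N.L ℓ, v ∈ N.L ℓ := by
    intro ℓ _ v hv
    obtain ⟨x, hx, y, hy, rfl⟩ := Submodule.mem_sup.mp hv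
    obtain ⟨w, hw, rfl⟩ := mem_push'.mp hx
    obtain ⟨w', hw', rfl⟩ := mem_push'.mp hy
    refine (N.L ℓ).add_mem (heL ℓ w hw) ?_
    rw [hcomp]
    exact (N.L ℓ).sub_mem (nat_smul_mem _ d _ hw') (heL ℓ w' hw')
  have hge : ∀ (ℓ : ℕ) [Fact ℓ.Prime], ∀ v ∈ N.L ℓ, (d : ℚ_[ℓ]) • v ∈ split d e N.L ℓ := by
    intro ℓ _ v hv
    refine Submodule.mem_sup.mpr ⟨_, mem_push'.mpr ⟨v, hv, rfl⟩, _, mem_push'.mpr ⟨v, hv, rfl⟩, ?_⟩
    rw [hcomp]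
    abel
  refine ⟨?_, hle, hge⟩
  have hS : D.IsLattice N.X (fun ℓ _ => push ((d : ℚ) • 1) N.L ℓ) := by
    refine isLattice_push (f := (d : ℚ)⁻¹ • 1) (g := (d : ℚ) • 1)
      ((D.Hom N.X N.X).smul_mem _ hone) ?_ ?_ N.isLattice
    · rw [Matrix.smul_mul, Matrix.mul_smul, smul_smul, Matrix.one_mul, mul_inv_cancel₀ hd0,
        one_smul]
    · rw [Matrix.smul_mul, Matrix.mul_smul, smul_smul, Matrix.one_mul, inv_mul_cancel₀ hd0,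
        one_smul]
  refine isLattice_between hS N.isLattice ?_ (fun ℓ _ v hv => hle ℓ v hv) ?_
  · intro ℓ _ v hv
    obtain ⟨w, hw, rfl⟩ := mem_push'.mp hv
    have h1 : ((d : ℚ) • (1 : Matrix (Fin (D.rank N.X)) (Fin (D.rank N.X)) ℚ)).map
        (algebraMap ℚ ℚ_[ℓ]) *ᵥ w = (d : ℚ_[ℓ]) • w := by
      rw [map_smul_mat, Matrix.map_one _ (map_zero _) (map_one _), map_natCast, smul_mulVec,
        one_mulVec]
    rw [h1]
    exact hge ℓ w hw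
  · intro ℓ _ g v hv
    obtain ⟨x, hx, y, hy, rfl⟩ := Submodule.mem_sup.mp hv
    rw [mulVec_add]
    exact Submodule.mem_sup.mpr ⟨_, push_stable he N.isLattice ℓ g x hx, _,
      push_stable (Submodule.sub_mem _ (Submodule.smul_mem _ _ hone) he) N.isLattice ℓ g y hy, rfl⟩

/-- the finiteness of the direct factors up to `d` -/
theorem finite_factors_upTo (N : D.ZMotive) (hE : IsSemisimpleRing (D.endo N.X)) (d : ℕ)
    (hd : 0 < d) : FiniteClass D (fun A => IsFactorUpTo D d A N) := by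
  classical
  have hd0 : (d : ℚ) ≠ 0 := Nat.cast_ne_zero.mpr hd.ne'
  obtain ⟨m, C, hC⟩ := finite_between N d hd (fun A => IsSemisimpleRing (D.endo A.X))
  choose r F hF using fun k => finite_factors (C k).1 (C k).2
  choose w W hW using fun (k : Fin m) (j : Fin (r k)) =>
    finite_between (F k j) d hd (fun _ => True)
  refine exists_family (T := Σ k : Fin m, Σ j : Fin (r k), Fin (w k j))
    (fun A : D.ZMotive => IsFactorUpTo D d A N)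
    (fun A s => D.Iso (W s.1 s.2.1 s.2.2).1 A) D.Iso ?_ ?_
  · intro A hA
    obtain ⟨i, hi, p, hp, hpi, h1, h2⟩ := hA
    have hd1 : ∀ (ℓ : ℕ) [Fact ℓ.Prime], (d : ℚ_[ℓ]) ≠ 0 := fun ℓ _ =>
      Nat.cast_ne_zero.mpr hd.ne'
    -- the retraction
    set q := (d : ℚ)⁻¹ • p with hq
    have hqm : q ∈ D.Hom N.X A.X := Submodule.smul_mem _ _ hp
    have hqi : q * i = 1 := by
      rw [hq, Matrix.smul_mul, hpi, smul_smul, inv_mul_cancel₀ hd0, one_smul]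
    have hqv : ∀ (ℓ : ℕ) [Fact ℓ.Prime] (v : Fin (D.rank N.X) → ℚ_[ℓ]),
        q.map (algebraMap ℚ ℚ_[ℓ]) *ᵥ v = (d : ℚ_[ℓ])⁻¹ • (p.map (algebraMap ℚ ℚ_[ℓ]) *ᵥ v) := by
      intro ℓ _ v
      rw [hq, map_smul_mat, smul_mulVec, map_inv₀, map_natCast]
    have hpiv : ∀ (ℓ : ℕ) [Fact ℓ.Prime] (v : Fin (D.rank A.X) → ℚ_[ℓ]),
        p.map (algebraMap ℚ ℚ_[ℓ]) *ᵥ (i.map (algebraMap ℚ ℚ_[ℓ]) *ᵥ v) = (d : ℚ_[ℓ]) • v := by
      intro ℓ _ v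
      rw [mulVec_mulVec, ← Matrix.map_mul, hpi, map_smul_mat,
        Matrix.map_one _ (map_zero _) (map_one _), map_natCast, smul_mulVec, one_mulVec]
    let A' : D.ZMotive := ⟨A.X, fun ℓ _ => push q N.L ℓ, isLattice_image hqm hqi N.isLattice⟩
    -- the lattice split by the idempotent
    have he : i * p ∈ D.Hom N.X N.X := D.mul_mem _ _ _ _ _ hi hp
    obtain ⟨s1, s2, s3⟩ := isLattice_split (N := N) hd he (fun ℓ _ v hv => by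
      rw [Matrix.map_mul, ← mulVec_mulVec]
      exact h1 ℓ _ (h2 ℓ v hv))
    let N' : D.ZMotive := ⟨N.X, fun ℓ _ => split d (i * p) N.L ℓ, s1⟩
    have hbet : IsBetween D d N N' := by
      refine ⟨1, D.one_mem N.X, 1, D.one_mem N.X, Matrix.one_mul _, Matrix.one_mul _,
        fun ℓ _ v hv => ?_, fun ℓ _ v hv => ?_⟩
      · rw [Matrix.map_one _ (map_zero _) (map_one _), one_mulVec]
        exact s2 ℓ v hv
      · rw [Matrix.map_one _ (map_zero _) (map_one _), one_mulVec]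
        exact s3 ℓ v hv
    obtain ⟨k, hk⟩ := hC ⟨N', hE⟩ hbet
    have hfac : IsFactor D A' N' := by
      refine ⟨(d : ℚ) • i, Submodule.smul_mem _ _ hi, (d : ℚ)⁻¹ • q,
        Submodule.smul_mem _ _ hqm, ?_, fun ℓ _ v hv => ?_, fun ℓ _ v hv => ?_⟩
      · rw [Matrix.smul_mul, Matrix.mul_smul, smul_smul, inv_mul_cancel₀ hd0, one_smul, hqi]
      · obtain ⟨y, hy, rfl⟩ := mem_push'.mp hv
        refine Submodule.mem_sup_left (mem_push'.mpr ⟨y, hy, ?_⟩)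
        rw [map_smul_mat, map_natCast, smul_mulVec, hqv, mulVec_smul, smul_smul,
          mul_inv_cancel₀ (hd1 ℓ), one_smul, mulVec_mulVec, ← Matrix.map_mul]
      · obtain ⟨x, hx, y, hy, rfl⟩ := Submodule.mem_sup.mp hv
        obtain ⟨w1, hw1, rfl⟩ := mem_push'.mp hx
        obtain ⟨w2, hw2, rfl⟩ := mem_push'.mp hy
        refine mem_push'.mpr ⟨w1, hw1, ?_⟩
        have e1 : (d : ℚ)⁻¹ • q * (i * p) = q := by
          rw [Matrix.smul_mul, ← Matrix.mul_assoc, hqi, Matrix.one_mul]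
        have e2 : (d : ℚ)⁻¹ • q * ((d : ℚ) • 1 - i * p) = 0 := by
          rw [Matrix.mul_sub, e1, Matrix.smul_mul, Matrix.mul_smul, Matrix.mul_one, smul_smul,
            inv_mul_cancel₀ hd0, one_smul, sub_self]
        rw [mulVec_add, mulVec_mulVec, mulVec_mulVec, ← Matrix.map_mul, ← Matrix.map_mul, e1, e2,
          Matrix.map_zero _ (map_zero _), zero_mulVec, add_zero]
    obtain ⟨j, hj⟩ := hF k A' (isFactor_of_iso hfac hk)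
    obtain ⟨f, hf, g, hg, h3, h4, h5⟩ := hj
    have hbet2 : IsBetween D d (F k j) A := by
      refine ⟨f, hf, g, hg, h3, h4, fun ℓ _ v hv => ?_, fun ℓ _ v hv => ?_⟩
      · rw [h5, mulVec_mulVec, ← Matrix.map_mul, h4, Matrix.map_one _ (map_zero _) (map_one _),
          one_mulVec]
        refine mem_push'.mpr ⟨_, h1 ℓ v hv, ?_⟩
        rw [hqv, hpiv, smul_smul, inv_mul_cancel₀ (hd1 ℓ), one_smul]
      · obtain ⟨y, hy, hy'⟩ := mem_push'.mp ((h5 ℓ v).mp hv)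
        rw [← hy', hqv, smul_smul, mul_inv_cancel₀ (hd1 ℓ), one_smul]
        exact h2 ℓ y hy
    obtain ⟨l, hl⟩ := hW k j ⟨A, trivial⟩ hbet2
    exact ⟨⟨k, j, l⟩, hl⟩
  · intro A A' s h1 h2
    exact iso_trans D (iso_symm D h1) h2

end Pool.Agent.Q55.ZT
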