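import Pool.Agent.Q55.SF.Defs

/-!
# Direct factors up to an integer, extension of the base field: definitions
-/

set_option autoImplicit false

namespace Pool.Agent.Q55.ZT

open Matrix Pool.Agent.Q55.SF

/-- The `ℤ`-motive `A` is a direct factor of the `ℤ`-motive `N` up to `d`: there are morphisms
`A → N → A` of `ℤ`-motives whose composition is the multiplication by `d`. -/
def IsFactorUpTo {G : Type} [Group G] (D : Motives G) (d : ℕ) (A N : D.ZMotive) : Prop :=
  ∃ i ∈ D.Hom A.X N.X, ∃ p ∈ D.Hom N.X A.X, p * i = (d : ℚ) • 1 ∧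
    (∀ (ℓ : ℕ) [Fact ℓ.Prime], ∀ v ∈ A.L ℓ, i.map (algebraMap ℚ ℚ_[ℓ]) *ᵥ v ∈ N.L ℓ) ∧
    ∀ (ℓ : ℕ) [Fact ℓ.Prime], ∀ v ∈ N.L ℓ, p.map (algebraMap ℚ ℚ_[ℓ]) *ᵥ v ∈ A.L ℓ

/-- The class `C` of `ℤ`-motives is finite up to isomorphism. -/
def FiniteClass {G : Type} [Group G] (D : Motives G) (C : D.ZMotive → Prop) : Prop :=
  ∃ (m : ℕ) (B : Fin m → D.ZMotive), ∀ A, C A → ∃ i, D.Iso (B i) A

/-- The motives over `F` (with the group `G`) and over a finite extension `F'` (with the group `G'`)
of degree `d`: extension and restriction (Weil) of scalars for `ℤ`-motives. -/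
structure Extension {G G' : Type} [Group G] [Group G'] (D : Motives G) (D' : Motives G')
    (d : ℕ) where
  /-- the extension of scalars -/
  ext : D.ZMotive → D'.ZMotive
  /-- the restriction of scalars -/
  res : D'.ZMotive → D.ZMotive
  ext_iso : ∀ A B, D.Iso A B → D'.Iso (ext A) (ext B)
  res_iso : ∀ A B, D'.Iso A B → D.Iso (res A) (res B)
  /-- `A → res (ext A) → A` is the multiplication by the degree -/
  unit : ∀ A, IsFactorUpTo D d A (res (ext A))
  /-- `B` is a direct factor of `ext (res B)` -/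
  counit : ∀ B, IsFactorUpTo D' 1 B (ext (res B))

end Pool.Agent.Q55.ZT
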