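import Pool.Agent.Q55.ZT.Defs

/-! # The endomorphisms of a polarized motive form a semisimple algebra -/

set_option autoImplicit false

namespace Pool.Agent.Q55.ZT

open Matrix Pool.Agent.Q55.SF

theorem pos_apply {n : ℕ} {S : Matrix (Fin n) (Fin n) ℝ} (hS : S.PosDef) (v : Fin n → ℝ)
    (h : v ⬝ᵥ S *ᵥ v = 0) : v = 0 := by
  by_contra hv
  have h1 := hS.dotProduct_mulVec_pos hv
  rw [star_trivial, h] at h1
  exact lt_irrefl _ h1

theorem pos_symm {n : ℕ} {S : Matrix (Fin n) (Fin n) ℝ} (hS : S.PosDef) : S.transpose = S := by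
  have h := hS.isHermitian
  unfold Matrix.IsHermitian at h
  rwa [Matrix.conjTranspose_eq_transpose_of_trivial] at h

theorem conj_dot {n : ℕ} (S a : Matrix (Fin n) (Fin n) ℝ) (v : Fin n → ℝ) :
    (a *ᵥ v) ⬝ᵥ S *ᵥ (a *ᵥ v) = v ⬝ᵥ (a.transpose * S * a) *ᵥ v := by
  rw [← mulVec_mulVec, ← mulVec_mulVec, Matrix.dotProduct_mulVec v a.transpose,
    Matrix.vecMul_transpose]

/-- if `z` is self-adjoint and `z² = 0`, then `z = 0` -/
theorem zero_of_sq {n : ℕ} {S z : Matrix (Fin n) (Fin n) ℝ} (hS : S.PosDef)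
    (hz : z.transpose * S = S * z) (h : z * z = 0) : z = 0 := by
  have h1 : ∀ v, z *ᵥ v = 0 := by
    intro v
    apply pos_apply hS
    have h2 : S * z * z = 0 := by rw [Matrix.mul_assoc, h, Matrix.mul_zero]
    rw [conj_dot, hz, h2, zero_mulVec, dotProduct_zero]
  exact Matrix.toLin'.injective (LinearMap.ext fun v => by
    rw [Matrix.toLin'_apply, h1, map_zero, LinearMap.zero_apply])

/-- a nilpotent self-adjoint matrix is zero -/
theorem zero_of_nilpotent {n : ℕ} {S y : Matrix (Fin n) (Fin n) ℝ} (hS : S.PosDef)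
    (hy : y.transpose * S = S * y) (h : IsNilpotent y) : y = 0 := by
  classical
  have hpow : ∀ k, (y ^ k).transpose * S = S * y ^ k := by
    intro k
    induction k with
    | zero => rw [pow_zero, transpose_one, Matrix.one_mul, Matrix.mul_one]
    | succ k ih =>
      rw [pow_succ, transpose_mul, Matrix.mul_assoc, ih, ← Matrix.mul_assoc, hy, Matrix.mul_assoc,
        ← pow_succ', ← pow_succ]
  by_contra hne
  have hex : ∃ k, y ^ k = 0 := h
  have h1 : y ^ Nat.find hex = 0 := Nat.find_spec hex
  have h2 : 2 ≤ Nat.find hex := by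
    by_contra hlt
    have h3 : Nat.find hex = 0 ∨ Nat.find hex = 1 := by omega
    rcases h3 with h3 | h3
    · rw [h3, pow_zero] at h1
      apply hne
      calc y = 1 * y := (Matrix.one_mul y).symm
        _ = 0 := by rw [h1, Matrix.zero_mul]
    · rw [h3, pow_one] at h1
      exact hne h1
  have h4 : y ^ (Nat.find hex - 1) = 0 := by
    apply zero_of_sq hS (hpow _)
    rw [← pow_add]
    have e : Nat.find hex - 1 + (Nat.find hex - 1) = Nat.find hex + (Nat.find hex - 2) := by omega
    rw [e, pow_add, h1, Matrix.zero_mul]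
  exact Nat.find_min hex (by omega) h4

variable {G : Type} [Group G] {D : Motives G} {Q : Forms D}

theorem semisimple_of_polarization {X : D.Obj} {J : Matrix (Fin (D.rank X)) (Fin (D.rank X)) ℚ}
    (hJ : Q.IsPolarization X J) : IsSemisimpleRing (D.endo X) := by
  obtain ⟨K, hK1, hK2, hK3⟩ := hJ.iso
  have hart : IsArtinianRing (D.endo X) := IsArtinianRing.of_finite ℚ _
  rw [IsArtinianRing.isSemisimpleRing_iff_jacobson, eq_bot_iff]
  intro x hx
  rw [Submodule.mem_bot]
  apply Subtype.ext
  -- the adjoint of `x`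
  have hxm : x.1 ∈ D.Hom X X := x.2
  have hform : x.1.transpose * J ∈ Q.form X := by
    have h := Q.pull X X J x.1 1 hJ.mem hxm (D.one_mem X)
    rwa [Matrix.mul_one] at h
  have hx' : K * (x.1.transpose * J) ∈ D.Hom X X := hK3 _ hform
  obtain ⟨k, hk⟩ := (inferInstance : IsSemiprimaryRing (D.endo X)).isNilpotent
  have h1 : (⟨K * (x.1.transpose * J), hx'⟩ : D.endo X) * x ∈ Ring.jacobson (D.endo X) :=
    Ideal.mul_mem_left _ _ hx
  have h2 : ((⟨K * (x.1.transpose * J), hx'⟩ : D.endo X) * x) ^ k = 0 := by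
    have := Ideal.pow_mem_pow h1 k
    rw [hk] at this
    exact this
  have h3 : (K * (x.1.transpose * J) * x.1) ^ k = 0 := congrArg Subtype.val h2
  -- over the reals
  set R := algebraMap ℚ ℝ with hR
  set S := J.map R * Q.weil X with hS
  set a := x.1.map R with ha
  have e1 : (K * (x.1.transpose * J)).map R * Q.weil X = Q.weil X * (K * (x.1.transpose * J)).map R :=
    Q.weil_comm X X _ hx'
  have e2 : x.1.map R * Q.weil X = Q.weil X * x.1.map R := Q.weil_comm X X _ hxm
  have e3 : J.map R * K.map R = 1 := by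
    rw [← Matrix.map_mul, hK2, Matrix.map_one _ (map_zero _) (map_one _)]
  have e3' : K.map R * J.map R = 1 := by
    rw [← Matrix.map_mul, hK1, Matrix.map_one _ (map_zero _) (map_one _)]
  have e4 : S * (K * (x.1.transpose * J)).map R = a.transpose * S := by
    rw [hS, Matrix.mul_assoc, ← e1, Matrix.map_mul, Matrix.map_mul, ← Matrix.mul_assoc,
      ← Matrix.mul_assoc, e3, Matrix.one_mul, Matrix.mul_assoc, Matrix.transpose_map]
  set y := (K * (x.1.transpose * J) * x.1).map R with hy
  have e5 : S * y = a.transpose * S * a := by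
    rw [hy, Matrix.map_mul, ← Matrix.mul_assoc, e4]
  have hsym : S.transpose = S := pos_symm hJ.posDef
  have e6 : y.transpose * S = S * y := by
    have h4 : (S * y).transpose = S * y := by
      rw [e5, transpose_mul, transpose_mul, transpose_transpose, hsym]
      exact (Matrix.mul_assoc _ _ _).symm
    rw [transpose_mul, hsym] at h4
    exact h4
  have hnil : IsNilpotent y := ⟨k, by
    have h5 : ∀ (A : Matrix (Fin (D.rank X)) (Fin (D.rank X)) ℚ), (A.map R) ^ k = (A ^ k).map R :=
      fun A => (map_pow (R.mapMatrix (m := Fin (D.rank X))) A k).symm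
    rw [hy, h5, h3, Matrix.map_zero _ (map_zero _)]⟩
  have h6 : y = 0 := zero_of_nilpotent hJ.posDef e6 hnil
  have h7 : a = 0 := by
    have h8 : ∀ v, a *ᵥ v = 0 := by
      intro v
      apply pos_apply hJ.posDef
      change (a *ᵥ v) ⬝ᵥ S *ᵥ (a *ᵥ v) = 0
      rw [conj_dot, ← e5, h6, Matrix.mul_zero, zero_mulVec, dotProduct_zero]
    exact Matrix.toLin'.injective (LinearMap.ext fun v => by
      rw [Matrix.toLin'_apply, h8, map_zero, LinearMap.zero_apply])
  ext i j
  have h10 := congrFun (congrFun h7 i) j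
  rw [ha, Matrix.map_apply, Matrix.zero_apply] at h10
  exact (map_eq_zero_iff R R.injective).mp h10

end Pool.Agent.Q55.ZT
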