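import Pool.Agent.Q55.ZT.Dual
import Pool.Agent.Q55.ZT.Pos

/-! # Sums of copies of a motive: lattices and polarizations -/

set_option autoImplicit false

namespace Pool.Agent.Q55.ZT

open Matrix Module Pool.Agent.Q55.SF

variable {G : Type} [Group G]

/-- `Z` is the sum of `r` copies of `X` -/
structure Dec (D : Motives G) (X Z : D.Obj) (r : ℕ) where
  i : Fin r → Matrix (Fin (D.rank Z)) (Fin (D.rank X)) ℚ
  p : Fin r → Matrix (Fin (D.rank X)) (Fin (D.rank Z)) ℚ
  hi : ∀ a, i a ∈ D.Hom X Z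
  hp : ∀ a, p a ∈ D.Hom Z X
  h1 : ∀ a, p a * i a = 1
  h2 : ∀ a b, a ≠ b → p a * i b = 0
  h3 : ∑ a, i a * p a = 1

variable {D : Motives G} {Q : Forms D} {X Z : D.Obj} {r : ℕ} (e : Dec D X Z r)

namespace Dec

/-- the `a`-th coordinate of a vector of `V_ℓ(Z)` -/
noncomputable def co (ℓ : ℕ) [Fact ℓ.Prime] (a : Fin r) (v : Fin (D.rank Z) → ℚ_[ℓ]) :
    Fin (D.rank X) → ℚ_[ℓ] := (e.p a).map (algebraMap ℚ ℚ_[ℓ]) *ᵥ v

/-- the `a`-th inclusion -/
noncomputable def inc (ℓ : ℕ) [Fact ℓ.Prime] (a : Fin r) (v : Fin (D.rank X) → ℚ_[ℓ]) :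
    Fin (D.rank Z) → ℚ_[ℓ] := (e.i a).map (algebraMap ℚ ℚ_[ℓ]) *ᵥ v

variable (ℓ : ℕ) [Fact ℓ.Prime]

theorem co_inc_same (a : Fin r) (v : Fin (D.rank X) → ℚ_[ℓ]) : e.co ℓ a (e.inc ℓ a v) = v := by
  unfold co inc
  rw [mulVec_mulVec, ← Matrix.map_mul, e.h1, Matrix.map_one _ (map_zero _) (map_one _),
    one_mulVec]

theorem co_inc_ne (a b : Fin r) (h : a ≠ b) (v : Fin (D.rank X) → ℚ_[ℓ]) :
    e.co ℓ a (e.inc ℓ b v) = 0 := by
  unfold co inc
  rw [mulVec_mulVec, ← Matrix.map_mul, e.h2 a b h, Matrix.map_zero _ (map_zero _), zero_mulVec]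

theorem co_add (a : Fin r) (v w : Fin (D.rank Z) → ℚ_[ℓ]) :
    e.co ℓ a (v + w) = e.co ℓ a v + e.co ℓ a w := mulVec_add _ _ _

theorem co_smul (a : Fin r) (c : ℚ_[ℓ]) (v : Fin (D.rank Z) → ℚ_[ℓ]) :
    e.co ℓ a (c • v) = c • e.co ℓ a v := mulVec_smul _ _ _

theorem co_act (a : Fin r) (g : G) (v : Fin (D.rank Z) → ℚ_[ℓ]) :
    e.co ℓ a (D.act Z ℓ g *ᵥ v) = D.act X ℓ g *ᵥ e.co ℓ a v := by
  unfold co
  rw [mulVec_mulVec, mulVec_mulVec]
  congr 1
  exact D.comm Z X _ (e.hp a) ℓ g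

theorem sum_inc_co (v : Fin (D.rank Z) → ℚ_[ℓ]) : ∑ a, e.inc ℓ a (e.co ℓ a v) = v := by
  unfold co inc
  have h : ∀ a, (e.i a).map (algebraMap ℚ ℚ_[ℓ]) *ᵥ ((e.p a).map (algebraMap ℚ ℚ_[ℓ]) *ᵥ v) =
      ((e.i a * e.p a).map (algebraMap ℚ ℚ_[ℓ])) *ᵥ v := fun a => by
    rw [mulVec_mulVec, ← Matrix.map_mul]
  rw [Finset.sum_congr rfl fun a _ => h a, ← Matrix.sum_mulVec]
  have h4 : ∑ a, (e.i a * e.p a).map (algebraMap ℚ ℚ_[ℓ]) = 1 := by
    have h5 : ∑ a, (e.i a * e.p a).map (algebraMap ℚ ℚ_[ℓ]) =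
        (∑ a, e.i a * e.p a).map (algebraMap ℚ ℚ_[ℓ]) := by
      ext x y
      rw [Matrix.sum_apply, Matrix.map_apply, Matrix.sum_apply, map_sum]
      rfl
    rw [h5, e.h3, Matrix.map_one _ (map_zero _) (map_one _)]
  rw [h4, one_mulVec]

/-- the sum of the lattices `L` -/
noncomputable def sumLat (L : ∀ (ℓ : ℕ) [Fact ℓ.Prime], Submodule ℤ_[ℓ] (Fin (D.rank X) → ℚ_[ℓ]))
    (ℓ : ℕ) [Fact ℓ.Prime] : Submodule ℤ_[ℓ] (Fin (D.rank Z) → ℚ_[ℓ]) where
  carrier := {v | ∀ a, e.co ℓ a v ∈ L ℓ}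
  zero_mem' a := by
    have h : e.co ℓ a 0 = 0 := mulVec_zero _
    rw [h]
    exact (L ℓ).zero_mem
  add_mem' {v w} hv hw a := by
    rw [co_add]
    exact (L ℓ).add_mem (hv a) (hw a)
  smul_mem' c v hv a := by
    have h : e.co ℓ a (c • v) = c • e.co ℓ a v := e.co_smul ℓ a (c : ℚ_[ℓ]) v
    rw [h]
    exact (L ℓ).smul_mem c (hv a)

theorem mem_sumLat {L : ∀ (ℓ : ℕ) [Fact ℓ.Prime], Submodule ℤ_[ℓ] (Fin (D.rank X) → ℚ_[ℓ])}
    {ℓ : ℕ} [Fact ℓ.Prime] {v : Fin (D.rank Z) → ℚ_[ℓ]} :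
    v ∈ e.sumLat L ℓ ↔ ∀ a, e.co ℓ a v ∈ L ℓ := Iff.rfl

theorem isLattice_sumLat
    {L : ∀ (ℓ : ℕ) [Fact ℓ.Prime], Submodule ℤ_[ℓ] (Fin (D.rank X) → ℚ_[ℓ])}
    (hL : D.IsLattice X L) : D.IsLattice Z (fun ℓ _ => e.sumLat L ℓ) where
  fg ℓ _ := by
    let S : Submodule ℤ_[ℓ] (Fin (D.rank Z) → ℚ_[ℓ]) :=
      ⨆ a, (L ℓ).map (((e.i a).map (algebraMap ℚ ℚ_[ℓ])).mulVecLin.restrictScalars ℤ_[ℓ])
    have hS : S.FG := Submodule.fg_iSup _ fun a => (hL.fg ℓ).map _
    have hle : e.sumLat L ℓ ≤ S := by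
      intro v hv
      rw [← e.sum_inc_co ℓ v]
      exact Submodule.sum_mem _ fun a _ => Submodule.mem_iSup_of_mem a ⟨_, hv a, rfl⟩
    have : Module.Finite ℤ_[ℓ] S := Module.Finite.iff_fg.mpr hS
    exact Submodule.FG.of_le_of_isNoetherian hle
  span ℓ _ v := by
    classical
    choose k hk using fun a => hL.span ℓ (e.co ℓ a v)
    refine ⟨Finset.univ.sup k, fun a => ?_⟩
    rw [co_smul]
    have hle : k a ≤ Finset.univ.sup k := Finset.le_sup (Finset.mem_univ a)
    obtain ⟨t, ht⟩ := Nat.exists_eq_add_of_le hle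
    rw [ht, pow_add, mul_comm, mul_smul]
    have h := (L ℓ).smul_mem ((ℓ : ℤ_[ℓ]) ^ t) (hk a)
    have h' : ((ℓ : ℤ_[ℓ]) ^ t) • ((ℓ : ℚ_[ℓ]) ^ k a • e.co ℓ a v) =
        (ℓ : ℚ_[ℓ]) ^ t • ((ℓ : ℚ_[ℓ]) ^ k a • e.co ℓ a v) := by
      funext j
      change algebraMap ℤ_[ℓ] ℚ_[ℓ] ((ℓ : ℤ_[ℓ]) ^ t) * _ = (ℓ : ℚ_[ℓ]) ^ t * _
      rw [map_pow, map_natCast]
    rwa [h'] at h
  stable ℓ _ g v hv a := by
    rw [co_act]
    exact hL.stable ℓ g _ (hv a)
  standard := by
    obtain ⟨N, hN⟩ := hL.standard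
    obtain ⟨N1, h1⟩ := exists_bound e.i
    obtain ⟨N2, h2⟩ := exists_bound e.p
    refine ⟨max N (max N1 N2), fun ℓ _ hℓ v => ?_⟩
    have hi' := h1 ℓ (lt_of_le_of_lt ((le_max_left _ _).trans (le_max_right _ _)) hℓ)
    have hp' := h2 ℓ (lt_of_le_of_lt ((le_max_right _ _).trans (le_max_right _ _)) hℓ)
    have hN' := hN ℓ (lt_of_le_of_lt (le_max_left _ _) hℓ)
    constructor
    · intro hv j
      rw [← e.sum_inc_co ℓ v, Finset.sum_apply]
      exact norm_sum_le _ _ fun a _ => norm_mulVec _ (hi' a) _ ((hN' _).mp (hv a)) j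
    · intro hv a
      exact (hN' _).mpr (norm_mulVec _ (hp' a) _ hv)

/-- the sum of the forms `J` -/
def sumForm (J : Matrix (Fin (D.rank X)) (Fin (D.rank X)) ℚ) :
    Matrix (Fin (D.rank Z)) (Fin (D.rank Z)) ℚ := ∑ a, (e.p a).transpose * J * e.p a

theorem dot_sumForm (J : Matrix (Fin (D.rank X)) (Fin (D.rank X)) ℚ)
    (u v : Fin (D.rank Z) → ℚ_[ℓ]) :
    u ⬝ᵥ (e.sumForm J).map (algebraMap ℚ ℚ_[ℓ]) *ᵥ v =
      ∑ a, e.co ℓ a u ⬝ᵥ J.map (algebraMap ℚ ℚ_[ℓ]) *ᵥ e.co ℓ a v := by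
  have h5 : (e.sumForm J).map (algebraMap ℚ ℚ_[ℓ]) =
      ∑ a, ((e.p a).transpose * J * e.p a).map (algebraMap ℚ ℚ_[ℓ]) := by
    ext x y
    unfold sumForm
    rw [Matrix.sum_apply, Matrix.map_apply, Matrix.sum_apply, map_sum]
    rfl
  rw [h5, Matrix.sum_mulVec, dotProduct_sum]
  refine Finset.sum_congr rfl fun a _ => ?_
  unfold co
  rw [Matrix.map_mul, Matrix.map_mul, ← mulVec_mulVec, ← mulVec_mulVec, transpose_map,
    Matrix.dotProduct_mulVec u, Matrix.vecMul_transpose]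

theorem isPolarization_sumForm {J : Matrix (Fin (D.rank X)) (Fin (D.rank X)) ℚ}
    (hJ : Q.IsPolarization X J) : Q.IsPolarization Z (e.sumForm J) where
  mem := Submodule.sum_mem _ fun a _ => Q.pull Z X J (e.p a) (e.p a) hJ.mem (e.hp a) (e.hp a)
  sign := by
    unfold sumForm
    rw [transpose_sum, Finset.smul_sum]
    refine Finset.sum_congr rfl fun a _ => ?_
    rw [transpose_mul, transpose_mul, transpose_transpose, hJ.sign, Matrix.smul_mul,
      Matrix.mul_smul, Matrix.mul_assoc]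
  iso := by
    obtain ⟨K, hK1, hK2, hK3⟩ := hJ.iso
    have hpi : ∀ a b, e.p a * e.i b = if a = b then 1 else 0 := by
      intro a b
      by_cases h : a = b
      · rw [if_pos h, h, e.h1]
      · rw [if_neg h, e.h2 a b h]
    have hip : ∀ a b, (e.i a).transpose * (e.p b).transpose = if a = b then 1 else 0 := by
      intro a b
      rw [← transpose_mul, hpi]
      by_cases h : b = a
      · rw [if_pos h, if_pos h.symm, transpose_one]
      · rw [if_neg h, if_neg (Ne.symm h), transpose_zero]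
    refine ⟨∑ a, e.i a * K * (e.i a).transpose, ?_, ?_, ?_⟩
    · unfold sumForm
      rw [Finset.sum_mul]
      have h : ∀ a, e.i a * K * (e.i a).transpose * ∑ b, (e.p b).transpose * J * e.p b =
          e.i a * e.p a := by
        intro a
        rw [Finset.mul_sum, Finset.sum_eq_single a]
        · calc e.i a * K * (e.i a).transpose * ((e.p a).transpose * J * e.p a) =
              e.i a * (K * ((e.i a).transpose * (e.p a).transpose) * J) * e.p a := by
                simp only [Matrix.mul_assoc]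
            _ = e.i a * e.p a := by
                rw [hip, if_pos rfl, Matrix.mul_one, hK1, Matrix.mul_one]
        · intro b _ hb
          calc e.i a * K * (e.i a).transpose * ((e.p b).transpose * J * e.p b) =
              e.i a * (K * ((e.i a).transpose * (e.p b).transpose) * J) * e.p b := by
                simp only [Matrix.mul_assoc]
            _ = 0 := by
                rw [hip, if_neg (Ne.symm hb), Matrix.mul_zero, Matrix.zero_mul, Matrix.mul_zero,
                  Matrix.zero_mul]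
        · intro h
          exact absurd (Finset.mem_univ a) h
      rw [Finset.sum_congr rfl fun a _ => h a, e.h3]
    · unfold sumForm
      rw [Finset.sum_mul]
      have h : ∀ b, (e.p b).transpose * J * e.p b * ∑ a, e.i a * K * (e.i a).transpose =
          (e.i b * e.p b).transpose := by
        intro b
        rw [Finset.mul_sum, Finset.sum_eq_single b]
        · calc (e.p b).transpose * J * e.p b * (e.i b * K * (e.i b).transpose) =
              (e.p b).transpose * (J * (e.p b * e.i b) * K) * (e.i b).transpose := by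
                simp only [Matrix.mul_assoc]
            _ = (e.i b * e.p b).transpose := by
                rw [e.h1, Matrix.mul_one, hK2, Matrix.mul_one, transpose_mul]
        · intro a _ ha
          calc (e.p b).transpose * J * e.p b * (e.i a * K * (e.i a).transpose) =
              (e.p b).transpose * (J * (e.p b * e.i a) * K) * (e.i a).transpose := by
                simp only [Matrix.mul_assoc]
            _ = 0 := by
                rw [e.h2 b a (Ne.symm ha), Matrix.mul_zero, Matrix.zero_mul, Matrix.mul_zero,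
                  Matrix.zero_mul]
        · intro h
          exact absurd (Finset.mem_univ b) h
      rw [Finset.sum_congr rfl fun a _ => h a, ← transpose_sum, e.h3, transpose_one]
    · intro J' hJ'
      have h : (∑ a, e.i a * K * (e.i a).transpose) * J' =
          ∑ a, ∑ b, e.i a * (K * ((e.i a).transpose * J' * e.i b)) * e.p b := by
        calc (∑ a, e.i a * K * (e.i a).transpose) * J' =
            (∑ a, e.i a * K * (e.i a).transpose) * J' * ∑ b, e.i b * e.p b := by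
              rw [e.h3, Matrix.mul_one]
          _ = _ := by
              rw [Finset.sum_mul, Finset.sum_mul]
              refine Finset.sum_congr rfl fun a _ => ?_
              rw [Finset.mul_sum]
              refine Finset.sum_congr rfl fun b _ => ?_
              simp only [Matrix.mul_assoc]
      rw [h]
      refine Submodule.sum_mem _ fun a _ => Submodule.sum_mem _ fun b _ => ?_
      refine D.mul_mem Z X Z _ _ (D.mul_mem X X Z _ _ (e.hi a) (hK3 _ ?_)) (e.hp b)
      exact Q.pull X Z J' (e.i a) (e.i b) hJ' (e.hi a) (e.hi b)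
  posDef := by
    have hS : (e.sumForm J).map (algebraMap ℚ ℝ) * Q.weil Z =
        ∑ a, ((e.p a).map (algebraMap ℚ ℝ)).transpose * (J.map (algebraMap ℚ ℝ) * Q.weil X) *
          (e.p a).map (algebraMap ℚ ℝ) := by
      have h5 : (e.sumForm J).map (algebraMap ℚ ℝ) =
          ∑ a, ((e.p a).transpose * J * e.p a).map (algebraMap ℚ ℝ) := by
        ext x y
        unfold sumForm
        rw [Matrix.sum_apply, Matrix.map_apply, Matrix.sum_apply, map_sum]
        rfl
      rw [h5, Finset.sum_mul]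
      refine Finset.sum_congr rfl fun a _ => ?_
      rw [Matrix.map_mul, Matrix.map_mul, Matrix.mul_assoc, Q.weil_comm Z X (e.p a) (e.hp a),
        transpose_map]
      simp only [Matrix.mul_assoc]
    have hsy := pos_symm hJ.posDef
    rw [hS]
    refine Matrix.PosDef.of_dotProduct_mulVec_pos ?_ ?_
    · unfold Matrix.IsHermitian
      rw [Matrix.conjTranspose_eq_transpose_of_trivial, transpose_sum]
      refine Finset.sum_congr rfl fun a _ => ?_
      rw [transpose_mul, transpose_mul, transpose_transpose, hsy]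
      simp only [Matrix.mul_assoc]
    · intro v hv
      rw [star_trivial, Matrix.sum_mulVec, dotProduct_sum]
      have hterm : ∀ a, v ⬝ᵥ (((e.p a).map (algebraMap ℚ ℝ)).transpose *
          (J.map (algebraMap ℚ ℝ) * Q.weil X) * (e.p a).map (algebraMap ℚ ℝ)) *ᵥ v =
          ((e.p a).map (algebraMap ℚ ℝ) *ᵥ v) ⬝ᵥ (J.map (algebraMap ℚ ℝ) * Q.weil X) *ᵥ
            ((e.p a).map (algebraMap ℚ ℝ) *ᵥ v) := by
        intro a
        rw [← mulVec_mulVec, ← mulVec_mulVec, Matrix.dotProduct_mulVec v, Matrix.vecMul_transpose]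
      rw [Finset.sum_congr rfl fun a _ => hterm a]
      have hnn : ∀ w, 0 ≤ w ⬝ᵥ (J.map (algebraMap ℚ ℝ) * Q.weil X) *ᵥ w := by
        intro w
        have h := hJ.posDef.posSemidef.dotProduct_mulVec_nonneg w
        rwa [star_trivial] at h
      refine lt_of_le_of_ne (Finset.sum_nonneg fun a _ => hnn _) fun h0 => hv ?_
      have h6 := (Finset.sum_eq_zero_iff_of_nonneg fun a _ => hnn _).mp h0.symm
      have h7 : ∀ a, (e.p a).map (algebraMap ℚ ℝ) *ᵥ v = 0 := fun a =>
        pos_apply hJ.posDef _ (h6 a (Finset.mem_univ a))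
      have h8 : v = ∑ a, (e.i a).map (algebraMap ℚ ℝ) *ᵥ ((e.p a).map (algebraMap ℚ ℝ) *ᵥ v) := by
        have h : ∀ a, (e.i a).map (algebraMap ℚ ℝ) *ᵥ ((e.p a).map (algebraMap ℚ ℝ) *ᵥ v) =
            ((e.i a * e.p a).map (algebraMap ℚ ℝ)) *ᵥ v := fun a => by
          rw [mulVec_mulVec, ← Matrix.map_mul]
        rw [Finset.sum_congr rfl fun a _ => h a, ← Matrix.sum_mulVec]
        have h4 : ∑ a, (e.i a * e.p a).map (algebraMap ℚ ℝ) = 1 := by
          have h5 : ∑ a, (e.i a * e.p a).map (algebraMap ℚ ℝ) =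
              (∑ a, e.i a * e.p a).map (algebraMap ℚ ℝ) := by
            ext x y
            rw [Matrix.sum_apply, Matrix.map_apply, Matrix.sum_apply, map_sum]
            rfl
          rw [h5, e.h3, Matrix.map_one _ (map_zero _) (map_one _)]
        rw [h4, one_mulVec]
      rw [h8]
      refine Finset.sum_eq_zero fun a _ => ?_
      rw [h7, mulVec_zero]

end Dec

end Pool.Agent.Q55.ZT
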