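import Pool.Agent.Q55.ZT.Near2

/-! # Transfer of the finiteness -/

set_option autoImplicit false

namespace Pool.Agent.Q55.ZT

open Matrix Module Pool.Agent.Q55.SF

variable {G G' : Type} [Group G] [Group G'] {D : Motives G} {D' : Motives G'}

theorem isFactorUpTo_of_iso {d : ℕ} {A B N : D.ZMotive} (h : IsFactorUpTo D d A B)
    (hN : D.Iso N B) : IsFactorUpTo D d A N := by
  obtain ⟨i, hi, p, hp, h1, h2, h3⟩ := h
  obtain ⟨f, hf, g, hg, h4, h5, h6⟩ := hN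
  refine ⟨g * i, D.mul_mem _ _ _ _ _ hg hi, p * f, D.mul_mem _ _ _ _ _ hp hf, ?_, ?_, ?_⟩
  · rw [Matrix.mul_assoc, ← Matrix.mul_assoc f, h5, Matrix.one_mul, h1]
  · intro ℓ _ v hv
    rw [h6, mulVec_mulVec, ← Matrix.map_mul, ← Matrix.mul_assoc, h5, Matrix.one_mul]
    exact h2 ℓ v hv
  · intro ℓ _ v hv
    rw [Matrix.map_mul, ← mulVec_mulVec]
    exact h3 ℓ _ ((h6 ℓ v).mp hv)

theorem transfer (Φ : D.ZMotive → D'.ZMotive) (Ψ : D'.ZMotive → D.ZMotive)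
    (hΨ : ∀ A B, D'.Iso A B → D.Iso (Ψ A) (Ψ B)) (C : D.ZMotive → Prop) (C' : D'.ZMotive → Prop)
    (hC : ∀ A, C A → C' (Φ A)) (d : ℕ) (hd : 0 < d)
    (hE : ∀ A, C A → IsSemisimpleRing (D.endo (Ψ (Φ A)).X))
    (hu : ∀ A, C A → IsFactorUpTo D d A (Ψ (Φ A))) (hfin : FiniteClass D' C') :
    FiniteClass D C := by
  obtain ⟨m, N, hN⟩ : ∃ (m : ℕ) (N : Fin m → {A : D.ZMotive // C A}), ∀ A : {A : D.ZMotive // C A},
      True → ∃ i, D'.Iso (Φ (N i).1) (Φ A.1) := by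
    obtain ⟨m, B, hB⟩ := hfin
    refine exists_family (T := Fin m) (fun _ : {A : D.ZMotive // C A} => True)
      (fun A i => D'.Iso (B i) (Φ A.1)) (fun A A' => D'.Iso (Φ A.1) (Φ A'.1))
      (fun A _ => hB _ (hC _ A.2)) ?_
    intro A A' i h1 h2
    exact iso_trans D' (iso_symm D' h1) h2
  choose r F hF using fun i => finite_factors_upTo (Ψ (Φ (N i).1)) (hE _ (N i).2) d hd
  refine exists_family (T := Σ i : Fin m, Fin (r i)) (fun A : D.ZMotive => C A)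
    (fun A s => D.Iso (F s.1 s.2) A) D.Iso ?_ ?_
  · intro A hA
    obtain ⟨i, hi⟩ := hN ⟨A, hA⟩ trivial
    obtain ⟨j, hj⟩ := hF i A (isFactorUpTo_of_iso (hu A hA) (hΨ _ _ hi))
    exact ⟨⟨i, j⟩, hj⟩
  · intro A A' s h1 h2
    exact iso_trans D (iso_symm D h1) h2

end Pool.Agent.Q55.ZT
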