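import Pool.Agent.Q55.ZT.Sum
import Pool.Agent.Q55.ZT.Four

/-! # Zarhin's lattice -/

set_option autoImplicit false

namespace Pool.Agent.Q55.ZT

open Matrix Module Pool.Agent.Q55.SF

variable {G : Type} [Group G] {D : Motives G} {Q : Forms D} {X Z : D.Obj} (e : Dec D X Z (4 + 4))

theorem zsmul_eq {n : ℕ} {ℓ : ℕ} [Fact ℓ.Prime] (k : ℤ) (v : Fin n → ℚ_[ℓ]) :
    k • v = (k : ℚ_[ℓ]) • v := by
  funext i
  change k • v i = (k : ℚ_[ℓ]) * v i
  rw [zsmul_eq_mul]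

section pairing

variable {n : ℕ} {ℓ : ℕ} [Fact ℓ.Prime]

/-- the pairing of two vectors by `B` -/
noncomputable def pr (B : Matrix (Fin n) (Fin n) ℚ_[ℓ]) (x y : Fin n → ℚ_[ℓ]) : ℚ_[ℓ] :=
  x ⬝ᵥ B *ᵥ y

theorem pr_left (B : Matrix (Fin n) (Fin n) ℚ_[ℓ]) (x : Fin n → ℚ_[ℓ]) (I : Fin 4 → ℤ)
    (y : Fin 4 → Fin n → ℚ_[ℓ]) (z : Fin n → ℚ_[ℓ]) :
    pr B (x - ∑ b, I b • y b) z = pr B x z - ∑ b, (I b : ℚ_[ℓ]) * pr B (y b) z := by
  unfold pr
  rw [sub_dotProduct, sum_dotProduct]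
  congr 1
  refine Finset.sum_congr rfl fun b _ => ?_
  rw [zsmul_eq, smul_dotProduct, smul_eq_mul]

theorem pr_right (B : Matrix (Fin n) (Fin n) ℚ_[ℓ]) (x : Fin n → ℚ_[ℓ]) (I : Fin 4 → ℤ)
    (y : Fin 4 → Fin n → ℚ_[ℓ]) (z : Fin n → ℚ_[ℓ]) :
    pr B x (z + ∑ b, I b • y b) = pr B x z + ∑ b, (I b : ℚ_[ℓ]) * pr B x (y b) := by
  unfold pr
  rw [mulVec_add, dotProduct_add, Matrix.mulVec_sum, dotProduct_sum]
  congr 1
  refine Finset.sum_congr rfl fun b _ => ?_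
  rw [zsmul_eq, mulVec_smul, dotProduct_smul, smul_eq_mul]

theorem pairing_identity (B : Matrix (Fin n) (Fin n) ℚ_[ℓ]) (I : Matrix (Fin 4) (Fin 4) ℤ)
    (z' w' z w : Fin 4 → Fin n → ℚ_[ℓ]) :
    ∑ a, pr B (z' a) (z a) + ∑ a, pr B (w' a) (w a) =
      ∑ a, pr B (w' a - ∑ b, I a b • z' b) (w a) + ∑ a, pr B (z' a) (z a + ∑ b, I b a • w b) := by
  have h1 : ∀ a, pr B (w' a - ∑ b, I a b • z' b) (w a) =
      pr B (w' a) (w a) - ∑ b, (I a b : ℚ_[ℓ]) * pr B (z' b) (w a) := fun a => pr_left B _ _ _ _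
  have h2 : ∀ a, pr B (z' a) (z a + ∑ b, I b a • w b) =
      pr B (z' a) (z a) + ∑ b, (I b a : ℚ_[ℓ]) * pr B (z' a) (w b) := fun a =>
    pr_right B _ (fun b => I b a) _ _
  rw [Finset.sum_congr rfl fun a _ => h1 a, Finset.sum_congr rfl fun a _ => h2 a,
    Finset.sum_sub_distrib, Finset.sum_add_distrib, Finset.sum_comm (f := fun a b =>
      (I b a : ℚ_[ℓ]) * pr B (z' a) (w b))]
  ring

theorem pr_symm (B : Matrix (Fin n) (Fin n) ℚ_[ℓ]) (w : ℕ)
    (hB : B.transpose = (-1 : ℚ_[ℓ]) ^ w • B) (x y : Fin n → ℚ_[ℓ]) :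
    ‖pr B x y‖ = ‖pr B y x‖ := by
  have h : pr B y x = (-1 : ℚ_[ℓ]) ^ w * pr B x y := by
    unfold pr
    rw [Matrix.dotProduct_mulVec, ← Matrix.mulVec_transpose, hB, smul_mulVec, dotProduct_comm,
      dotProduct_smul, smul_eq_mul]
  rw [h, norm_mul, norm_pow, norm_neg, norm_one, one_pow, one_mul]

end pairing

/-- Zarhin's lattice in `X ^ 8` -/
noncomputable def zarLat (I : Matrix (Fin 4) (Fin 4) ℤ)
    (L M : ∀ (ℓ : ℕ) [Fact ℓ.Prime], Submodule ℤ_[ℓ] (Fin (D.rank X) → ℚ_[ℓ])) (ℓ : ℕ)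
    [Fact ℓ.Prime] : Submodule ℤ_[ℓ] (Fin (D.rank Z) → ℚ_[ℓ]) where
  carrier := {v | (∀ a : Fin 4, e.co ℓ (Fin.castAdd 4 a) v ∈ M ℓ) ∧
    ∀ a : Fin 4, e.co ℓ (Fin.natAdd 4 a) v - ∑ b : Fin 4, I a b • e.co ℓ (Fin.castAdd 4 b) v ∈ L ℓ}
  zero_mem' := by
    have h : ∀ c, e.co ℓ c 0 = 0 := fun c => mulVec_zero _
    refine ⟨fun a => ?_, fun a => ?_⟩
    · rw [h]
      exact (M ℓ).zero_mem
    · simp only [h, smul_zero, Finset.sum_const_zero, sub_zero]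
      exact (L ℓ).zero_mem
  add_mem' {v w} hv hw := by
    refine ⟨fun a => ?_, fun a => ?_⟩
    · rw [e.co_add]
      exact (M ℓ).add_mem (hv.1 a) (hw.1 a)
    · have h := (L ℓ).add_mem (hv.2 a) (hw.2 a)
      have e1 : e.co ℓ (Fin.natAdd 4 a) (v + w) -
          ∑ b : Fin 4, I a b • e.co ℓ (Fin.castAdd 4 b) (v + w) =
          (e.co ℓ (Fin.natAdd 4 a) v - ∑ b : Fin 4, I a b • e.co ℓ (Fin.castAdd 4 b) v) +
          (e.co ℓ (Fin.natAdd 4 a) w - ∑ b : Fin 4, I a b • e.co ℓ (Fin.castAdd 4 b) w) := by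
        simp only [e.co_add, smul_add, Finset.sum_add_distrib]
        abel
      rw [e1]
      exact h
  smul_mem' c v hv := by
    have hc : ∀ a, e.co ℓ a (c • v) = c • e.co ℓ a v := fun a => e.co_smul ℓ a (c : ℚ_[ℓ]) v
    refine ⟨fun a => ?_, fun a => ?_⟩
    · rw [hc]
      exact (M ℓ).smul_mem c (hv.1 a)
    · have h := (L ℓ).smul_mem c (hv.2 a)
      have e1 : e.co ℓ (Fin.natAdd 4 a) (c • v) -
          ∑ b : Fin 4, I a b • e.co ℓ (Fin.castAdd 4 b) (c • v) =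
          c • (e.co ℓ (Fin.natAdd 4 a) v - ∑ b : Fin 4, I a b • e.co ℓ (Fin.castAdd 4 b) v) := by
        simp only [hc, smul_sub, Finset.smul_sum]
        congr 1
        exact Finset.sum_congr rfl fun b _ => smul_comm _ _ _
      rw [e1]
      exact h

theorem mem_zarLat {I : Matrix (Fin 4) (Fin 4) ℤ}
    {L M : ∀ (ℓ : ℕ) [Fact ℓ.Prime], Submodule ℤ_[ℓ] (Fin (D.rank X) → ℚ_[ℓ])} {ℓ : ℕ}
    [Fact ℓ.Prime] {v : Fin (D.rank Z) → ℚ_[ℓ]} : v ∈ zarLat e I L M ℓ ↔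
      (∀ a : Fin 4, e.co ℓ (Fin.castAdd 4 a) v ∈ M ℓ) ∧ ∀ a : Fin 4,
        e.co ℓ (Fin.natAdd 4 a) v - ∑ b : Fin 4, I a b • e.co ℓ (Fin.castAdd 4 b) v ∈ L ℓ :=
  Iff.rfl

theorem isLattice_zarLat (I : Matrix (Fin 4) (Fin 4) ℤ)
    {L M : ∀ (ℓ : ℕ) [Fact ℓ.Prime], Submodule ℤ_[ℓ] (Fin (D.rank X) → ℚ_[ℓ])}
    (hL : D.IsLattice X L) (hM : D.IsLattice X M)
    (hLM : ∀ (ℓ : ℕ) [Fact ℓ.Prime], L ℓ ≤ M ℓ) :
    D.IsLattice Z (fun ℓ _ => zarLat e I L M ℓ) := by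
  refine isLattice_between (e.isLattice_sumLat hL) (e.isLattice_sumLat hM) ?_ ?_ ?_
  · intro ℓ _ v hv
    exact ⟨fun a => hLM ℓ (hv _), fun a => (L ℓ).sub_mem (hv _) ((L ℓ).sum_mem fun b _ =>
      zsmul_mem (hv _) _)⟩
  · intro ℓ _ v hv c
    refine Fin.addCases (fun a => hv.1 a) (fun a => ?_) c
    have h := (M ℓ).add_mem (hLM ℓ (hv.2 a)) ((M ℓ).sum_mem fun b (_ : b ∈ Finset.univ) =>
      zsmul_mem (hv.1 b) (I a b))
    rwa [sub_add_cancel] at h
  · intro ℓ _ g v hv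
    refine ⟨fun a => ?_, fun a => ?_⟩
    · rw [e.co_act]
      exact hM.stable ℓ g _ (hv.1 a)
    · have h := hL.stable ℓ g _ (hv.2 a)
      have e1 : e.co ℓ (Fin.natAdd 4 a) (D.act Z ℓ g *ᵥ v) -
          ∑ b : Fin 4, I a b • e.co ℓ (Fin.castAdd 4 b) (D.act Z ℓ g *ᵥ v) =
          D.act X ℓ g *ᵥ (e.co ℓ (Fin.natAdd 4 a) v -
            ∑ b : Fin 4, I a b • e.co ℓ (Fin.castAdd 4 b) v) := by
        rw [mulVec_sub, Matrix.mulVec_sum, e.co_act]
        congr 1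
        refine Finset.sum_congr rfl fun b _ => ?_
        rw [e.co_act, zsmul_eq, zsmul_eq, mulVec_smul]
      rw [e1]
      exact h

/-- the lattice is self-dual -/
theorem zarLat_selfDual (I : Matrix (Fin 4) (Fin 4) ℤ) (s : ℤ)
    (h1 : ∀ i j, ∑ k, I k i * I k j = if i = j then s else 0)
    (h2 : ∀ i j, ∑ k, I i k * I j k = if i = j then s else 0)
    {J : Matrix (Fin (D.rank X)) (Fin (D.rank X)) ℚ} (hJ : Q.IsPolarization X J)
    {L : ∀ (ℓ : ℕ) [Fact ℓ.Prime], Submodule ℤ_[ℓ] (Fin (D.rank X) → ℚ_[ℓ])}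
    (hL : D.IsLattice X L) (hLM : ∀ (ℓ : ℕ) [Fact ℓ.Prime], L ℓ ≤ adual J L ℓ)
    (hm : ∀ (ℓ : ℕ) [Fact ℓ.Prime], ∀ v ∈ adual J L ℓ, (s + 1) • v ∈ L ℓ) (ℓ : ℕ) [Fact ℓ.Prime]
    (v : Fin (D.rank Z) → ℚ_[ℓ]) :
    v ∈ zarLat e I L (fun ℓ _ => adual J L ℓ) ℓ ↔
      ∀ u ∈ zarLat e I L (fun ℓ _ => adual J L ℓ) ℓ,
        ‖u ⬝ᵥ (e.sumForm J).map (algebraMap ℚ ℚ_[ℓ]) *ᵥ v‖ ≤ 1 := by
  obtain ⟨K, hK1, hK2, -⟩ := hJ.iso
  have hsgn : (J.map (algebraMap ℚ ℚ_[ℓ])).transpose =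
      (-1 : ℚ_[ℓ]) ^ Q.weight • J.map (algebraMap ℚ ℚ_[ℓ]) := by
    rw [← transpose_map, hJ.sign]
    ext i j
    simp only [Matrix.map_apply, Matrix.smul_apply, smul_eq_mul, map_mul, map_pow, map_neg,
      map_one]
  have hsymm := pr_symm (J.map (algebraMap ℚ ℚ_[ℓ])) Q.weight hsgn
  have hfour := four_iff (L ℓ).toAddSubgroup (adual J L ℓ).toAddSubgroup (hLM ℓ) s (hm ℓ) I h1 h2
    (fun a => e.co ℓ (Fin.castAdd 4 a) v) (fun a => e.co ℓ (Fin.natAdd 4 a) v)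
  have hpair : ∀ u, u ⬝ᵥ (e.sumForm J).map (algebraMap ℚ ℚ_[ℓ]) *ᵥ v =
      ∑ a : Fin 4, pr (J.map (algebraMap ℚ ℚ_[ℓ])) (e.co ℓ (Fin.natAdd 4 a) u -
        ∑ b : Fin 4, I a b • e.co ℓ (Fin.castAdd 4 b) u) (e.co ℓ (Fin.natAdd 4 a) v) +
      ∑ a : Fin 4, pr (J.map (algebraMap ℚ ℚ_[ℓ])) (e.co ℓ (Fin.castAdd 4 a) u)
        (e.co ℓ (Fin.castAdd 4 a) v + ∑ b : Fin 4, I b a • e.co ℓ (Fin.natAdd 4 b) v) := by
    intro u
    rw [e.dot_sumForm, Fin.sum_univ_add]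
    exact pairing_identity _ I (fun a => e.co ℓ (Fin.castAdd 4 a) u)
      (fun a => e.co ℓ (Fin.natAdd 4 a) u) (fun a => e.co ℓ (Fin.castAdd 4 a) v)
      (fun a => e.co ℓ (Fin.natAdd 4 a) v)
  constructor
  · intro hv u hu
    obtain ⟨hq, hw⟩ := hfour.mp hv
    rw [hpair]
    refine (Padic.nonarchimedean _ _).trans (max_le (norm_sum_le _ _ fun a _ => ?_)
      (norm_sum_le _ _ fun a _ => ?_))
    · exact hw a _ (hu.2 a)
    · rw [hsymm]
      exact hu.1 a _ (hq a)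
  · intro hv
    refine hfour.mpr ⟨fun a => ?_, fun a => ?_⟩
    · refine mem_of_dual _ _ (map_mul_one hK2 ℓ) (L ℓ) (hL.fg ℓ) (hL.span ℓ) _ fun z hz => ?_
      have hcl : ∀ b : Fin 4, e.co ℓ (Fin.castAdd 4 b) (e.inc ℓ (Fin.castAdd 4 a) z +
          ∑ c : Fin 4, (I c a : ℚ_[ℓ]) • e.inc ℓ (Fin.natAdd 4 c) z) =
          if b = a then z else 0 := by
        intro b
        have h3 : e.co ℓ (Fin.castAdd 4 b) (∑ c : Fin 4, (I c a : ℚ_[ℓ]) •
            e.inc ℓ (Fin.natAdd 4 c) z) = 0 := by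
          unfold Dec.co
          rw [Matrix.mulVec_sum]
          refine Finset.sum_eq_zero fun c _ => ?_
          rw [mulVec_smul]
          have h4 := e.co_inc_ne ℓ (Fin.castAdd 4 b) (Fin.natAdd 4 c) (fun h5 => by
            have h6 := congrArg Fin.val h5
            rw [Fin.val_castAdd, Fin.val_natAdd] at h6
            omega) z
          unfold Dec.co at h4
          rw [h4, smul_zero]
        rw [e.co_add, h3, add_zero]
        by_cases hb : b = a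
        · rw [if_pos hb, hb, e.co_inc_same]
        · rw [if_neg hb]
          exact e.co_inc_ne ℓ _ _ (fun h5 => hb (Fin.castAdd_injective 4 4 h5)) z
      have hcr : ∀ b : Fin 4, e.co ℓ (Fin.natAdd 4 b) (e.inc ℓ (Fin.castAdd 4 a) z +
          ∑ c : Fin 4, (I c a : ℚ_[ℓ]) • e.inc ℓ (Fin.natAdd 4 c) z) = I b a • z := by
        intro b
        have h3 : e.co ℓ (Fin.natAdd 4 b) (∑ c : Fin 4, (I c a : ℚ_[ℓ]) •
            e.inc ℓ (Fin.natAdd 4 c) z) = I b a • z := by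
          have h4 : ∀ c : Fin 4, e.co ℓ (Fin.natAdd 4 b) ((I c a : ℚ_[ℓ]) •
              e.inc ℓ (Fin.natAdd 4 c) z) = if b = c then I b a • z else 0 := by
            intro c
            rw [e.co_smul]
            by_cases hb : b = c
            · rw [if_pos hb, hb, e.co_inc_same, zsmul_eq]
            · rw [if_neg hb, e.co_inc_ne ℓ _ _ (fun h5 => hb (Fin.natAdd_injective 4 4 h5)) z,
                smul_zero]
          have h5 : e.co ℓ (Fin.natAdd 4 b) (∑ c : Fin 4, (I c a : ℚ_[ℓ]) •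
              e.inc ℓ (Fin.natAdd 4 c) z) = ∑ c : Fin 4, e.co ℓ (Fin.natAdd 4 b)
                ((I c a : ℚ_[ℓ]) • e.inc ℓ (Fin.natAdd 4 c) z) := Matrix.mulVec_sum _ _ _
          rw [h5, Finset.sum_congr rfl fun c _ => h4 c, Finset.sum_ite_eq, if_pos
            (Finset.mem_univ b)]
        rw [e.co_add, h3, e.co_inc_ne ℓ _ _ (fun h5 => by
            have h6 := congrArg Fin.val h5
            rw [Fin.val_castAdd, Fin.val_natAdd] at h6
            omega) z, zero_add]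
      have hu0 : ∀ b : Fin 4, I b a • z - ∑ c : Fin 4, I b c • (if c = a then z else 0) = 0 := by
        intro b
        rw [Finset.sum_eq_single a]
        · rw [if_pos rfl, sub_self]
        · intro c _ hc
          rw [if_neg hc, smul_zero]
        · intro h
          exact absurd (Finset.mem_univ a) h
      have hu : e.inc ℓ (Fin.castAdd 4 a) z + ∑ c : Fin 4, (I c a : ℚ_[ℓ]) •
          e.inc ℓ (Fin.natAdd 4 c) z ∈ zarLat e I L (fun ℓ _ => adual J L ℓ) ℓ := by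
        refine ⟨fun b => ?_, fun b => ?_⟩
        · rw [hcl]
          by_cases hb : b = a
          · rw [if_pos hb]
            exact hz
          · rw [if_neg hb]
            exact Submodule.zero_mem _
        · simp only [hcl, hcr]
          rw [hu0]
          exact Submodule.zero_mem _
      have h7 := hv _ hu
      rw [hpair] at h7
      simp only [hcl, hcr, hu0] at h7
      have h8 : ∀ b : Fin 4, pr (J.map (algebraMap ℚ ℚ_[ℓ])) 0 (e.co ℓ (Fin.natAdd 4 b) v) = 0 :=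
        fun b => by
          unfold pr
          rw [zero_dotProduct]
      simp only [h8, Finset.sum_const_zero, zero_add] at h7
      rw [Finset.sum_eq_single a, if_pos rfl] at h7
      · rw [hsymm] at h7
        exact h7
      · intro b _ hb
        rw [if_neg hb]
        unfold pr
        rw [zero_dotProduct]
      · intro h
        exact absurd (Finset.mem_univ a) h
    · intro x hx
      have hcl : ∀ b : Fin 4, e.co ℓ (Fin.castAdd 4 b) (e.inc ℓ (Fin.natAdd 4 a) x) = 0 := fun b =>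
        e.co_inc_ne ℓ _ _ (fun h5 => by
          have h6 := congrArg Fin.val h5
          rw [Fin.val_castAdd, Fin.val_natAdd] at h6
          omega) x
      have hcr : ∀ b : Fin 4, e.co ℓ (Fin.natAdd 4 b) (e.inc ℓ (Fin.natAdd 4 a) x) =
          if b = a then x else 0 := by
        intro b
        by_cases hb : b = a
        · rw [if_pos hb, hb, e.co_inc_same]
        · rw [if_neg hb]
          exact e.co_inc_ne ℓ _ _ (fun h5 => hb (Fin.natAdd_injective 4 4 h5)) x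
      have hu : e.inc ℓ (Fin.natAdd 4 a) x ∈ zarLat e I L (fun ℓ _ => adual J L ℓ) ℓ := by
        refine ⟨fun b => ?_, fun b => ?_⟩
        · rw [hcl]
          exact Submodule.zero_mem _
        · simp only [hcl, hcr, smul_zero, Finset.sum_const_zero, sub_zero]
          by_cases hb : b = a
          · rw [if_pos hb]
            exact hx
          · rw [if_neg hb]
            exact Submodule.zero_mem _
      have h7 := hv _ hu
      rw [hpair] at h7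
      simp only [hcl, hcr, smul_zero, Finset.sum_const_zero, sub_zero] at h7
      have h8 : ∀ y : Fin (D.rank X) → ℚ_[ℓ], pr (J.map (algebraMap ℚ ℚ_[ℓ])) 0 y = 0 :=
        fun b => by
          unfold pr
          rw [zero_dotProduct]
      simp only [h8, Finset.sum_const_zero, add_zero] at h7
      rw [Finset.sum_eq_single a, if_pos rfl] at h7
      · exact h7
      · intro b _ hb
        rw [if_neg hb, h8]
      · intro h
        exact absurd (Finset.mem_univ a) h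

end Pool.Agent.Q55.ZT
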